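import Mathlib

/-!
# MP_7ba156_nt: completely multiplicative functions with given values on the primes, and their
counting functions
-/

namespace Pool.Agent.BG

open Finset

/-- the completely multiplicative function with the values `v p` on the primes -/
noncomputable def ext (v : ℕ → ℝ) : ℕ →*₀ ℝ where
  toFun n := if n = 0 then 0 else n.factorization.prod fun p k => v p ^ k
  map_zero' := by simp
  map_one' := by simp
  map_mul' m n := by
    by_cases hm : m = 0
    · simp [hm]
    by_cases hn : n = 0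
    · simp [hn]
    rw [if_neg (mul_ne_zero hm hn), if_neg hm, if_neg hn, Nat.factorization_mul hm hn]
    exact Finsupp.prod_add_index' (fun _ => pow_zero _) fun _ _ _ => pow_add _ _ _

theorem ext_of_ne {v : ℕ → ℝ} {n : ℕ} (hn : n ≠ 0) :
    ext v n = n.factorization.prod fun p k => v p ^ k := if_neg hn

theorem ext_prime {v : ℕ → ℝ} {p : ℕ} (hp : p.Prime) : ext v p = v p := by
  rw [ext_of_ne hp.ne_zero, hp.factorization]
  refine (Finsupp.prod_single_index (h := fun p k => v p ^ k) (pow_zero _)).trans ?_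
  exact pow_one _

theorem ext_congr {v w : ℕ → ℝ} {n : ℕ} (h : ∀ p, p.Prime → p ∣ n → v p = w p) :
    ext v n = ext w n := by
  by_cases hn : n = 0
  · simp [hn]
  rw [ext_of_ne hn, ext_of_ne hn]
  refine Finsupp.prod_congr fun p hp => ?_
  have hp' : p ∈ n.primeFactors := by simpa using hp
  rw [h p (Nat.prime_of_mem_primeFactors hp') (Nat.dvd_of_mem_primeFactors hp')]

theorem ext_id (n : ℕ) : ext (fun p => (p : ℝ)) n = n := by
  by_cases hn : n = 0
  · simp [hn]
  rw [ext_of_ne hn]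
  conv_rhs => rw [← Nat.prod_factorization_pow_eq_self hn]
  rw [Finsupp.prod, Finsupp.prod]
  push_cast
  rfl

/-- the values at the primes are at least the square root of the prime -/
def Good (v : ℕ → ℝ) : Prop := ∀ p : ℕ, p.Prime → Real.sqrt p ≤ v p

theorem Good.one_lt {v : ℕ → ℝ} (h : Good v) {p : ℕ} (hp : p.Prime) : 1 < v p := by
  refine lt_of_lt_of_le ?_ (h p hp)
  rw [Real.lt_sqrt zero_le_one]
  norm_num
  exact hp.one_lt

theorem Good.pos {v : ℕ → ℝ} (h : Good v) {p : ℕ} (hp : p.Prime) : 0 < v p :=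
  zero_lt_one.trans (h.one_lt hp)

theorem Good.ext_pos {v : ℕ → ℝ} (h : Good v) {n : ℕ} (hn : 0 < n) : 0 < ext v n := by
  rw [ext_of_ne hn.ne']
  refine Finset.prod_pos fun p hp => pow_pos (h.pos ?_) _
  exact Nat.prime_of_mem_primeFactors (by simpa using hp)

theorem Good.sqrt_le {v : ℕ → ℝ} (h : Good v) {n : ℕ} (hn : 0 < n) : Real.sqrt n ≤ ext v n := by
  have h1 : Real.sqrt (n : ℝ) ^ 2 = n := Real.sq_sqrt (Nat.cast_nonneg _)
  have h2 : ext (fun p => Real.sqrt p) n ^ 2 = n := by
    rw [← ext_id n, ext_of_ne hn.ne', ext_of_ne hn.ne', Finsupp.prod, Finsupp.prod, ← Finset.prod_pow]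
    refine Finset.prod_congr rfl fun p _ => ?_
    rw [← pow_mul, mul_comm, pow_mul, Real.sq_sqrt (Nat.cast_nonneg _)]
  have h3 : 0 ≤ ext (fun p => Real.sqrt p) n := by
    rw [ext_of_ne hn.ne']
    exact Finset.prod_nonneg fun p _ => pow_nonneg (Real.sqrt_nonneg _) _
  have h4 : Real.sqrt n = ext (fun p => Real.sqrt p) n := by
    rw [← Real.sqrt_sq h3, h2]
  rw [h4, ext_of_ne hn.ne', ext_of_ne hn.ne']
  refine Finset.prod_le_prod (fun p _ => pow_nonneg (Real.sqrt_nonneg _) _) fun p hp => ?_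
  exact pow_le_pow_left₀ (Real.sqrt_nonneg _)
    (h p (Nat.prime_of_mem_primeFactors (by simpa using hp))) _

theorem Good.one_le {v : ℕ → ℝ} (h : Good v) {n : ℕ} (hn : 0 < n) : 1 ≤ ext v n := by
  refine le_trans ?_ (h.sqrt_le hn)
  rw [Real.one_le_sqrt]
  exact_mod_cast hn

/-- the value at a prime factor is at most the value -/
theorem Good.le_of_dvd {v : ℕ → ℝ} (h : Good v) {n p : ℕ} (hn : 0 < n) (hp : p.Prime)
    (hpn : p ∣ n) : v p ≤ ext v n := by
  obtain ⟨m, rfl⟩ := hpn
  have hm : 0 < m := Nat.pos_of_mul_pos_left hn |> fun h => by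
    rcases Nat.eq_zero_or_pos m with h0 | h0
    · simp [h0] at hn
    · exact h0
  rw [map_mul, ext_prime hp]
  exact le_mul_of_one_le_right (h.pos hp).le (h.one_le hm)

/-- generalised integers up to `x` -/
def gi (v : ℕ → ℝ) (x : ℝ) : Set ℕ := {n | 0 < n ∧ ext v n ≤ x}

theorem Good.gi_finite {v : ℕ → ℝ} (h : Good v) (x : ℝ) : (gi v x).Finite := by
  refine (Set.finite_Iic ⌊x ^ 2⌋₊).subset fun n hn => ?_
  have h1 := (h.sqrt_le hn.1).trans hn.2
  have h2 : (n : ℝ) ≤ x ^ 2 := by
    rw [← Real.sq_sqrt (Nat.cast_nonneg n)]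
    exact pow_le_pow_left₀ (Real.sqrt_nonneg _) h1 2
  exact Nat.le_floor h2

/-- the counting function of the generalised integers -/
noncomputable def cnt (v : ℕ → ℝ) (x : ℝ) : ℝ := (gi v x).ncard

theorem Good.cnt_lt_one {v : ℕ → ℝ} (h : Good v) {x : ℝ} (hx : x < 1) : cnt v x = 0 := by
  have : gi v x = ∅ := by
    ext n
    simp only [gi, Set.mem_ofPred_eq, Set.mem_empty_iff_false, iff_false, not_and, not_le]
    intro hn
    exact hx.trans_le (h.one_le hn)
  rw [cnt, this]
  simp

/-- splitting with respect to the divisibility by a prime -/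
theorem Good.cnt_split {v : ℕ → ℝ} (h : Good v) {p : ℕ} (hp : p.Prime) (x : ℝ) :
    cnt v x = ({n | ¬ p ∣ n ∧ n ∈ gi v x} : Set ℕ).ncard + cnt v (x / v p) := by
  have h1 : gi v x = {n | ¬ p ∣ n ∧ n ∈ gi v x} ∪ (fun n => p * n) '' gi v (x / v p) := by
    ext n
    simp only [gi, Set.mem_ofPred_eq, Set.mem_union, Set.mem_image]
    constructor
    · rintro ⟨h1, h2⟩
      by_cases h3 : p ∣ n
      · right
        obtain ⟨m, rfl⟩ := h3
        refine ⟨m, ⟨?_, ?_⟩, rfl⟩
        · rcases Nat.eq_zero_or_pos m with h0 | h0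
          · simp [h0] at h1
          · exact h0
        · rw [map_mul, ext_prime hp] at h2
          rw [le_div_iff₀ (h.pos hp), mul_comm]
          exact h2
      · exact Or.inl ⟨h3, h1, h2⟩
    · rintro (⟨-, h1, h2⟩ | ⟨m, ⟨h1, h2⟩, rfl⟩)
      · exact ⟨h1, h2⟩
      · refine ⟨Nat.mul_pos hp.pos h1, ?_⟩
        rw [map_mul, ext_prime hp, mul_comm]
        exact (le_div_iff₀ (h.pos hp)).1 h2
  have h2 : Disjoint ({n | ¬ p ∣ n ∧ n ∈ gi v x} : Set ℕ) ((fun n => p * n) '' gi v (x / v p)) := by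
    rw [Set.disjoint_left]
    rintro _ ⟨h1, -⟩ ⟨m, -, rfl⟩
    exact h1 (dvd_mul_right _ _)
  have h3 : (gi v x).ncard = _ := congrArg Set.ncard h1
  rw [Set.ncard_union_eq h2 ((h.gi_finite x).subset fun n hn => hn.2) ((h.gi_finite _).image _),
    Set.ncard_image_of_injective _ (fun a b hab => Nat.eq_of_mul_eq_mul_left hp.pos hab)] at h3
  rw [cnt, h3]
  push_cast
  rfl

/-- moving one generalised prime -/
theorem cnt_update {v : ℕ → ℝ} (h : Good v) {p : ℕ} (hp : p.Prime) {q : ℝ}
    (h' : Good (Function.update v p q)) (x : ℝ) :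
    cnt (Function.update v p q) x - cnt (Function.update v p q) (x / q) =
      cnt v x - cnt v (x / v p) := by
  have h1 := h.cnt_split hp x
  have h2 := h'.cnt_split hp x
  have h3 : ({n | ¬ p ∣ n ∧ n ∈ gi (Function.update v p q) x} : Set ℕ) =
      {n | ¬ p ∣ n ∧ n ∈ gi v x} := by
    ext n
    simp only [gi, Set.mem_ofPred_eq]
    refine and_congr_right fun h3 => and_congr_right fun h4 => ?_
    rw [ext_congr (v := Function.update v p q) (w := v) fun r hr hrn => ?_]
    rw [Function.update_of_ne]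
    rintro rfl
    exact h3 hrn
  rw [h3, Function.update_self] at h2
  rw [h1, h2]
  ring

/-- the step of the estimate: one generalised prime is moved from `v p` to `q` -/
theorem step {v : ℕ → ℝ} (h : Good v) {p : ℕ} (hp : p.Prime) {q : ℝ}
    (h' : Good (Function.update v p q)) {A ρ τ : ℝ} (hτ : 0 < τ) (hτ1 : τ ≤ 1) (hρ : 0 ≤ ρ)
    (hρA : ρ ≤ A) (hb : ∀ x, 0 < x → |cnt v x - ρ * x| ≤ A * x ^ τ) :
    (∀ x, 0 < x → |cnt (Function.update v p q) x - ρ * ((1 - 1 / v p) / (1 - 1 / q)) * x| ≤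
      A * ((1 + (v p) ^ (-τ)) / (1 - q ^ (-τ))) * x ^ τ) ∧
    ρ * ((1 - 1 / v p) / (1 - 1 / q)) ≤ A * ((1 + (v p) ^ (-τ)) / (1 - q ^ (-τ))) := by
  have hr := h.one_lt hp
  have hq : 1 < q := by
    have := h'.one_lt hp
    rwa [Function.update_self] at this
  set r := v p with hrdef
  have hr0 : 0 < r := zero_lt_one.trans hr
  have hq0 : 0 < q := zero_lt_one.trans hq
  have hA : 0 ≤ A := hρ.trans hρA
  have hqi : 0 < 1 - 1 / q := by
    rw [sub_pos, div_lt_one hq0]; exact hq
  have hri : 0 < 1 - 1 / r := by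
    rw [sub_pos, div_lt_one hr0]; exact hr
  have hqt : q ^ (-τ) < 1 := Real.rpow_lt_one_of_one_lt_of_neg hq (by linarith)
  have hqt0 : 0 < q ^ (-τ) := Real.rpow_pos_of_pos hq0 _
  have hrt0 : 0 < r ^ (-τ) := Real.rpow_pos_of_pos hr0 _
  have hq1 : 1 / q ≤ q ^ (-τ) := by
    rw [one_div, ← Real.rpow_neg_one]
    exact Real.rpow_le_rpow_of_exponent_le hq.le (by linarith)
  set ρ' := ρ * ((1 - 1 / r) / (1 - 1 / q)) with hρ'
  set A' := A * ((1 + r ^ (-τ)) / (1 - q ^ (-τ))) with hA'
  have hρ'0 : 0 ≤ ρ' := by positivity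
  have hA1 : A' * (1 - q ^ (-τ)) = A * (1 + r ^ (-τ)) := by
    rw [hA', mul_assoc, div_mul_cancel₀ _ (sub_pos.2 hqt).ne']
  have hρ1 : ρ' * (1 - 1 / q) = ρ * (1 - 1 / r) := by
    rw [hρ', mul_assoc, div_mul_cancel₀ _ hqi.ne']
  have hρA' : ρ' ≤ A' := by
    rw [hρ', hA']
    refine mul_le_mul hρA ?_ (by positivity) hA
    refine div_le_div₀ (by positivity) ?_ (sub_pos.2 hqt) (by linarith)
    have : 0 < 1 / r := by positivity
    linarith
  refine ⟨?_, hρA'⟩
  have key : ∀ j : ℕ, ∀ x : ℝ, 0 < x → x < q ^ j →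
      |cnt (Function.update v p q) x - ρ' * x| ≤ A' * x ^ τ := by
    intro j
    induction j with
    | zero =>
      intro x hx hx1
      rw [pow_zero] at hx1
      rw [h'.cnt_lt_one hx1, zero_sub, abs_neg, abs_of_nonneg (by positivity)]
      have : x ≤ x ^ τ := by
        conv_lhs => rw [← Real.rpow_one x]
        exact Real.rpow_le_rpow_of_exponent_ge hx hx1.le hτ1
      calc ρ' * x ≤ A' * x := by gcongr
        _ ≤ A' * x ^ τ := by
          refine mul_le_mul_of_nonneg_left this (hρ'0.trans hρA')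
    | succ j ih =>
      intro x hx hx1
      have h1 := ih (x / q) (by positivity) (by
        rw [div_lt_iff₀ hq0, ← pow_succ]
        exact hx1)
      have h2 := cnt_update h hp h' x
      have h3 := hb x hx
      have h4 := hb (x / r) (by positivity)
      have h5 : cnt (Function.update v p q) x - ρ' * x =
          (cnt (Function.update v p q) (x / q) - ρ' * (x / q)) +
          ((cnt v x - ρ * x) - (cnt v (x / r) - ρ * (x / r))) := by
        have e1 : cnt (Function.update v p q) x =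
            cnt (Function.update v p q) (x / q) + (cnt v x - cnt v (x / r)) := by
          linarith [h2]
        have e2 : ρ' * x - ρ' * (x / q) = ρ * x - ρ * (x / r) := by
          have : ρ' * x - ρ' * (x / q) = ρ' * (1 - 1 / q) * x := by ring
          rw [this, hρ1]
          ring
        rw [e1]
        linarith
      rw [h5]
      have e3 : (x / q) ^ τ = x ^ τ * q ^ (-τ) := by
        rw [Real.div_rpow hx.le hq0.le, Real.rpow_neg hq0.le]
        rfl
      have e4 : (x / r) ^ τ = x ^ τ * r ^ (-τ) := by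
        rw [Real.div_rpow hx.le hr0.le, Real.rpow_neg hr0.le]
        rfl
      rw [e3] at h1
      rw [e4] at h4
      calc |(cnt (Function.update v p q) (x / q) - ρ' * (x / q)) +
          ((cnt v x - ρ * x) - (cnt v (x / r) - ρ * (x / r)))|
          ≤ |cnt (Function.update v p q) (x / q) - ρ' * (x / q)| +
            (|cnt v x - ρ * x| + |cnt v (x / r) - ρ * (x / r)|) := by
            refine (abs_add_le _ _).trans ?_
            gcongr
            exact abs_sub _ _
        _ ≤ A' * (x ^ τ * q ^ (-τ)) + (A * x ^ τ + A * (x ^ τ * r ^ (-τ))) := by gcongr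
        _ = x ^ τ * (A' * q ^ (-τ) + A * (1 + r ^ (-τ))) := by ring
        _ = A' * x ^ τ := by rw [← hA1]; ring
  intro x hx
  obtain ⟨j, hj⟩ := pow_unbounded_of_one_lt x hq
  exact key j x hx hj

end Pool.Agent.BG
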