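import Pool.Agent.Lib_MP_7ba156_nt.Basic

/-!
# MP_7ba156_nt: moving finitely many primes, and the uniform estimate
-/

namespace Pool.Agent.BG

open Finset

/-- the primes of `T` are moved -/
noncomputable def mix (T : Finset ℕ) (w : ℕ → ℝ) (p : ℕ) : ℝ := if p ∈ T then w p else p

theorem sqrt_le_self (p : ℕ) (hp : p.Prime) : Real.sqrt p ≤ p := by
  rw [Real.sqrt_le_left (Nat.cast_nonneg _)]
  have : (1 : ℝ) ≤ p := by exact_mod_cast hp.one_lt.le
  nlinarith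

theorem good_mix {w : ℕ → ℝ} (h : Good w) (T : Finset ℕ) : Good (mix T w) := by
  intro p hp
  unfold mix
  split_ifs
  · exact h p hp
  · exact sqrt_le_self p hp

theorem cnt_id {τ : ℝ} (hτ : 0 < τ) (hτ1 : τ ≤ 1) {x : ℝ} (hx : 0 < x) :
    |cnt (fun p => (p : ℝ)) x - x| ≤ x ^ τ := by
  have h1 : gi (fun p => (p : ℝ)) x = ((Finset.Icc 1 ⌊x⌋₊ : Finset ℕ) : Set ℕ) := by
    ext n
    simp only [gi, Set.mem_ofPred_eq, ext_id, Finset.coe_Icc, Set.mem_Icc]
    constructor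
    · rintro ⟨h1, h2⟩
      exact ⟨h1, Nat.le_floor h2⟩
    · rintro ⟨h1, h2⟩
      exact ⟨h1, (Nat.le_floor_iff hx.le).1 h2⟩
  have h2 : cnt (fun p => (p : ℝ)) x = ⌊x⌋₊ := by
    rw [cnt, h1, Set.ncard_coe_finset, Nat.card_Icc]
    simp
  rw [h2]
  have h3 := Nat.floor_le hx.le
  have h4 := Nat.lt_floor_add_one x
  rw [abs_sub_comm, abs_of_nonneg (by linarith)]
  rcases le_or_gt 1 x with h5 | h5
  · have : 1 ≤ x ^ τ := Real.one_le_rpow h5 hτ.le
    linarith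
  · have : x ≤ x ^ τ := by
      conv_lhs => rw [← Real.rpow_one x]
      exact Real.rpow_le_rpow_of_exponent_ge hx h5.le hτ1
    have : (0 : ℝ) ≤ (⌊x⌋₊ : ℝ) := Nat.cast_nonneg _
    linarith

theorem fin_bound {w : ℕ → ℝ} (h : Good w) {τ : ℝ} (hτ : 0 < τ) (hτ1 : τ ≤ 1) (T : Finset ℕ)
    (hT : ∀ p ∈ T, p.Prime) :
    (∀ x, 0 < x → |cnt (mix T w) x - (∏ p ∈ T, ((1 - 1 / (p : ℝ)) / (1 - 1 / w p))) * x| ≤
      (∏ p ∈ T, ((1 + (p : ℝ) ^ (-τ)) / (1 - (w p) ^ (-τ)))) * x ^ τ) ∧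
    (∏ p ∈ T, ((1 - 1 / (p : ℝ)) / (1 - 1 / w p))) ≤
      (∏ p ∈ T, ((1 + (p : ℝ) ^ (-τ)) / (1 - (w p) ^ (-τ)))) ∧
    0 ≤ ∏ p ∈ T, ((1 - 1 / (p : ℝ)) / (1 - 1 / w p)) := by
  induction T using Finset.induction_on with
  | empty =>
    refine ⟨fun x hx => ?_, by simp, by simp⟩
    have : mix ∅ w = fun p : ℕ => (p : ℝ) := by
      funext p
      simp [mix]
    rw [this]
    simpa using cnt_id hτ hτ1 hx
  | insert p T hp ih =>
    obtain ⟨h1, h2, h3⟩ := ih fun r hr => hT r (Finset.mem_insert_of_mem hr)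
    have hpp : p.Prime := hT p (Finset.mem_insert_self _ _)
    have e1 : mix (insert p T) w = Function.update (mix T w) p (w p) := by
      funext r
      by_cases hr : r = p
      · subst hr
        simp [mix]
      · rw [Function.update_of_ne hr]
        simp [mix, hr]
    have e2 : mix T w p = p := by simp [mix, hp]
    have hg : Good (Function.update (mix T w) p (w p)) := e1 ▸ good_mix h _
    obtain ⟨k1, k2⟩ := step (good_mix h T) hpp hg hτ hτ1 h3 h2 h1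
    rw [e2] at k1 k2
    have hw1 : 1 < w p := h.one_lt hpp
    have hp1 : (1 : ℝ) < p := by exact_mod_cast hpp.one_lt
    have n1 : 0 ≤ (1 - 1 / (p : ℝ)) / (1 - 1 / w p) := by
      refine div_nonneg ?_ ?_
      · rw [sub_nonneg, div_le_one (by linarith)]; exact hp1.le
      · rw [sub_nonneg, div_le_one (by linarith)]; exact hw1.le
    rw [Finset.prod_insert hp, Finset.prod_insert hp, e1,
      mul_comm ((1 - 1 / (p : ℝ)) / (1 - 1 / w p)),
      mul_comm ((1 + (p : ℝ) ^ (-τ)) / (1 - (w p) ^ (-τ)))]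
    exact ⟨k1, k2, mul_nonneg h3 n1⟩

/-- the constants stay bounded -/
theorem const_bound {w : ℕ → ℝ} (h : Good w) (h2 : ∀ p : ℕ, p.Prime → (p : ℝ) / 2 ≤ w p) {τ : ℝ}
    (hτ : 0 < τ) (hτ1 : τ ≤ 1) :
    ∃ K : ℝ, 0 ≤ K ∧ ∀ T : Finset ℕ, (∀ p ∈ T, p.Prime) →
      (∏ p ∈ T, ((1 + (p : ℝ) ^ (-τ)) / (1 - (w p) ^ (-τ)))) ≤
        Real.exp (K * ∑ p ∈ T, (p : ℝ) ^ (-τ)) := by
  set z0 : ℝ := Real.sqrt 2 ^ (-τ) with hz0
  have hs2 : 1 < Real.sqrt 2 := by
    rw [Real.lt_sqrt zero_le_one]; norm_num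
  have hz1 : z0 < 1 := Real.rpow_lt_one_of_one_lt_of_neg hs2 (by linarith)
  have hz2 : 0 < z0 := Real.rpow_pos_of_pos (by linarith) _
  have hd : 0 < 1 - z0 := by linarith
  refine ⟨1 + 2 / (1 - z0), by positivity, fun T hT => ?_⟩
  rw [Finset.mul_sum, Real.exp_sum]
  refine Finset.prod_le_prod ?_ ?_
  · intro p hp
    have hpp := hT p hp
    have hw1 : 1 < w p := h.one_lt hpp
    have : (w p) ^ (-τ) < 1 := Real.rpow_lt_one_of_one_lt_of_neg hw1 (by linarith)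
    have h3 : 0 ≤ (p : ℝ) ^ (-τ) := Real.rpow_nonneg (Nat.cast_nonneg _) _
    exact div_nonneg (by linarith) (by linarith)
  · intro p hp
    have hpp := hT p hp
    have hp0 : (0 : ℝ) < p := by exact_mod_cast hpp.pos
    have hp2 : (2 : ℝ) ≤ p := by exact_mod_cast hpp.two_le
    have hw1 : 1 < w p := h.one_lt hpp
    have hwz : (w p) ^ (-τ) ≤ z0 := by
      rw [hz0]
      refine Real.rpow_le_rpow_of_nonpos (by linarith) ?_ (by linarith)
      exact (Real.sqrt_le_sqrt hp2).trans (h p hpp)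
    have hw0 : 0 < (w p) ^ (-τ) := Real.rpow_pos_of_pos (by linarith) _
    have hwp : (w p) ^ (-τ) ≤ 2 * (p : ℝ) ^ (-τ) := by
      calc (w p) ^ (-τ) ≤ ((p : ℝ) / 2) ^ (-τ) :=
            Real.rpow_le_rpow_of_nonpos (by positivity) (h2 p hpp) (by linarith)
        _ = (p : ℝ) ^ (-τ) / (2 : ℝ) ^ (-τ) := Real.div_rpow hp0.le zero_le_two _
        _ = (p : ℝ) ^ (-τ) * (2 : ℝ) ^ τ := by
          rw [Real.rpow_neg zero_le_two, div_inv_eq_mul]
        _ ≤ (p : ℝ) ^ (-τ) * 2 := by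
          gcongr
          calc (2 : ℝ) ^ τ ≤ 2 ^ (1 : ℝ) := Real.rpow_le_rpow_of_exponent_le one_le_two hτ1
            _ = 2 := Real.rpow_one 2
        _ = 2 * (p : ℝ) ^ (-τ) := mul_comm _ _
    set b := (p : ℝ) ^ (-τ)
    set z := (w p) ^ (-τ)
    have hb0 : 0 ≤ b := Real.rpow_nonneg (Nat.cast_nonneg _) _
    have h4 : (1 : ℝ) / (1 - z) ≤ Real.exp (z / (1 - z0)) := by
      have h5 : 0 < 1 - z := by linarith
      calc (1 : ℝ) / (1 - z) = 1 + z / (1 - z) := by field_simp; ring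
        _ ≤ 1 + z / (1 - z0) := by
          gcongr
        _ ≤ Real.exp (z / (1 - z0)) := by
          have := Real.add_one_le_exp (z / (1 - z0))
          linarith
    calc (1 + b) / (1 - z) = (1 + b) * (1 / (1 - z)) := by ring
      _ ≤ Real.exp b * Real.exp (z / (1 - z0)) := by
        refine mul_le_mul ?_ h4 (by
          have : 0 < 1 - z := by linarith
          positivity) (Real.exp_pos _).le
        have := Real.add_one_le_exp b
        linarith
      _ = Real.exp (b + z / (1 - z0)) := by rw [Real.exp_add]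
      _ ≤ Real.exp ((1 + 2 / (1 - z0)) * b) := by
        refine Real.exp_le_exp.2 ?_
        have : z / (1 - z0) ≤ 2 * b / (1 - z0) := by gcongr
        calc b + z / (1 - z0) ≤ b + 2 * b / (1 - z0) := by linarith
          _ = (1 + 2 / (1 - z0)) * b := by ring

/-- The counting function of the generalised integers: it suffices that finite sets `T` of primes
with balanced products exhaust the moved primes. -/
theorem cnt_bound {w : ℕ → ℝ} (h : Good w) (h2 : ∀ p : ℕ, p.Prime → (p : ℝ) / 2 ≤ w p)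
    {τ S : ℝ} (hτ : 0 < τ) (hτ1 : τ ≤ 1)
    (hT : ∀ x : ℝ, ∃ T : Finset ℕ, (∀ p ∈ T, p.Prime) ∧
      (∏ p ∈ T, ((1 - 1 / (p : ℝ)) / (1 - 1 / w p))) = 1 ∧
      ∑ p ∈ T, (p : ℝ) ^ (-τ) ≤ S ∧
      ∀ p : ℕ, p.Prime → p ∉ T → w p = p ∨ (x < p ∧ x < w p)) :
    ∃ C : ℝ, ∀ x : ℝ, 0 < x → |cnt w x - x| ≤ C * x ^ τ := by
  obtain ⟨K, hK, hb⟩ := const_bound h h2 hτ hτ1
  refine ⟨Real.exp (K * S), fun x hx => ?_⟩
  obtain ⟨T, t1, t2, t3, t4⟩ := hT x
  obtain ⟨k1, -, -⟩ := fin_bound h hτ hτ1 T t1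
  have k1 := k1 x hx
  rw [t2, one_mul] at k1
  have e : gi w x = gi (mix T w) x := by
    ext n
    simp only [gi, Set.mem_ofPred_eq]
    constructor
    · rintro ⟨h3, h4⟩
      refine ⟨h3, ?_⟩
      rwa [ext_congr (v := mix T w) (w := w) fun p hp hpn => ?_]
      unfold mix
      split_ifs with h5
      · rfl
      · rcases t4 p hp h5 with h6 | ⟨-, h6⟩
        · exact h6.symm
        · exact absurd (h.le_of_dvd h3 hp hpn) (not_le.2 (h4.trans_lt h6))
    · rintro ⟨h3, h4⟩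
      refine ⟨h3, ?_⟩
      rwa [ext_congr (v := w) (w := mix T w) fun p hp hpn => ?_]
      have h7 := (good_mix h T).le_of_dvd h3 hp hpn
      by_cases h5 : p ∈ T
      · simp [mix, h5]
      · have h8 : mix T w p = p := by simp [mix, h5]
        rw [h8] at h7 ⊢
        rcases t4 p hp h5 with h6 | ⟨h6, -⟩
        · exact h6
        · exact absurd (h7.trans h4) (not_le.2 h6)
  rw [cnt, e]
  refine k1.trans ?_
  have hx0 : 0 ≤ x ^ τ := Real.rpow_nonneg hx.le _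
  refine mul_le_mul_of_nonneg_right ?_ hx0
  exact (hb T t1).trans (Real.exp_le_exp.2 (mul_le_mul_of_nonneg_left t3 hK))

end Pool.Agent.BG
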