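import Pool.Agent.Lib_MP_7ba156_nt.Seq

/-!
# MP_7ba156_nt: the number of generalised primes, and the long gaps
-/

namespace Pool.Agent.BG

open Finset

namespace WData

variable {M : ℝ → ℝ} (D : WData M)

theorem primes_finite (x : ℝ) : ({p : ℕ | p.Prime ∧ D.w p ≤ x} : Set ℕ).Finite := by
  refine (Set.finite_Iic ⌊2 * x⌋₊).subset fun p hp => ?_
  refine Nat.le_floor ?_
  have := D.half_le p
  linarith [hp.2]

theorem prime_count (hmono : MonotoneOn M (Set.Ici 2)) {x : ℝ} (hx : 2 ≤ x)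
    (hM1 : ∀ x, 2 ≤ x → 1 ≤ M x) :
    |(({p : ℕ | p.Prime ∧ D.w p ≤ x} : Set ℕ).ncard : ℝ) -
      ({p : ℕ | p.Prime ∧ (p : ℝ) ≤ x} : Set ℕ).ncard| ≤ M x := by
  set P : Set ℕ := {p : ℕ | p.Prime ∧ D.w p ≤ x} with hP
  set Q : Set ℕ := {p : ℕ | p.Prime ∧ (p : ℝ) ≤ x} with hQ
  have hPf : P.Finite := D.primes_finite x
  have hQf : Q.Finite := (Set.finite_Iic ⌊x⌋₊).subset fun p hp => Nat.le_floor hp.2
  have key : ∀ p, (p ∈ P \ Q ∨ p ∈ Q \ P) → ∃ k, p ∈ D.S k ∧ D.A k ≤ x ∧ x ≤ D.A k + 6 * D.H k := by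
    intro p hp
    have hpp : p.Prime := by
      rcases hp with h | h
      · exact h.1.1
      · exact h.1.1
    by_cases h : ∃ k, p ∈ D.S k
    · obtain ⟨k, hk⟩ := h
      have h1 := D.w_mem hk
      have h2 := ((D.hS k p).1 hk).2
      refine ⟨k, hk, ?_⟩
      rcases hp with ⟨h3, h4⟩ | ⟨h3, h4⟩
      · have h5 : x < p := by
          by_contra h6
          exact h4 ⟨hpp, not_lt.1 h6⟩
        exact ⟨h1.1.trans h3.2, h5.le.trans h2.2⟩
      · have h5 : x < D.w p := by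
          by_contra h6
          exact h4 ⟨hpp, not_lt.1 h6⟩
        exact ⟨h2.1.trans h3.2, h5.le.trans h1.2⟩
    · push Not at h
      exfalso
      have h1 := D.w_of_notMem h
      rcases hp with ⟨h3, h4⟩ | ⟨h3, h4⟩
      · refine h4 ⟨hpp, ?_⟩
        rw [← h1]
        exact h3.2
      · refine h4 ⟨hpp, ?_⟩
        rw [h1]
        exact h3.2
  have hbd : ((P \ Q).ncard : ℝ) ≤ M x ∧ ((Q \ P).ncard : ℝ) ≤ M x := by
    by_cases h : ∃ k, D.A k ≤ x ∧ x ≤ D.A k + 6 * D.H k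
    · obtain ⟨k, hk1, hk2⟩ := h
      have h1 : ∀ R : Set ℕ, (∀ p ∈ R, p ∈ P \ Q ∨ p ∈ Q \ P) → (R.ncard : ℝ) ≤ M x := by
        intro R hR
        have h2 : R ⊆ (D.S k : Set ℕ) := by
          intro p hp
          obtain ⟨l, hl, hl1, hl2⟩ := key p (hR p hp)
          rw [D.eq_of_mem hk1 hk2 hl1 hl2]
          exact hl
        have h3 : R.ncard ≤ (D.S k).card := by
          rw [← Set.ncard_coe_finset]
          exact Set.ncard_le_ncard h2 (D.S k).finite_toSet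
        have h4 : (R.ncard : ℝ) ≤ ((D.S k).card : ℝ) := by exact_mod_cast h3
        have h5 : (2 : ℝ) ≤ D.A k := by linarith [D.hA k]
        exact h4.trans ((D.hcard k).trans (hmono h5 (h5.trans hk1) hk1))
      exact ⟨h1 _ fun p hp => Or.inl hp, h1 _ fun p hp => Or.inr hp⟩
    · have h0 : (0 : ℝ) ≤ M x := zero_le_one.trans (hM1 x hx)
      have h1 : P \ Q = ∅ := by
        rw [Set.eq_empty_iff_forall_notMem]
        intro p hp
        obtain ⟨l, hl, hl1, hl2⟩ := key p (Or.inl hp)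
        exact h ⟨l, hl1, hl2⟩
      have h2 : Q \ P = ∅ := by
        rw [Set.eq_empty_iff_forall_notMem]
        intro p hp
        obtain ⟨l, hl, hl1, hl2⟩ := key p (Or.inr hp)
        exact h ⟨l, hl1, hl2⟩
      rw [h1, h2, Set.ncard_empty]
      simpa using h0
  have e1 : P.ncard = (P ∩ Q).ncard + (P \ Q).ncard :=
    (Set.ncard_inter_add_ncard_sdiff_eq_ncard P Q hPf).symm
  have e2 : Q.ncard = (Q ∩ P).ncard + (Q \ P).ncard :=
    (Set.ncard_inter_add_ncard_sdiff_eq_ncard Q P hQf).symm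
  rw [e1, e2, Set.inter_comm Q P]
  push_cast
  rw [abs_le]
  have n1 : (0 : ℝ) ≤ ((P \ Q).ncard : ℝ) := Nat.cast_nonneg _
  have n2 : (0 : ℝ) ≤ ((Q \ P).ncard : ℝ) := Nat.cast_nonneg _
  constructor <;> linarith [hbd.1, hbd.2]

theorem gap (hmono : MonotoneOn M (Set.Ici 2)) (hM1 : ∀ x, 2 ≤ x → 1 ≤ M x) (Y : ℝ) :
    ∃ p q : ℕ, p.Prime ∧ q.Prime ∧ Y ≤ D.w p ∧
      M (D.w p) * Real.log (D.w p) / 300 ≤ D.w q - D.w p ∧ D.w p < D.w q ∧
      ∀ r : ℕ, r.Prime → D.w r ≤ D.w p ∨ D.w q ≤ D.w r := by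
  obtain ⟨r0, hr0, hr0p⟩ := Nat.exists_infinite_primes ⌈2 * Y⌉₊
  have hr0Y : Y ≤ D.w r0 := by
    have h1 := Nat.le_ceil (2 * Y)
    have h2 : (⌈2 * Y⌉₊ : ℝ) ≤ r0 := by exact_mod_cast hr0
    have := D.half_le r0
    linarith
  obtain ⟨k, hk⟩ := pow_unbounded_of_one_lt (D.w r0) one_lt_two
  have hk1 : D.w r0 ≤ D.A k := hk.le.trans (D.A_ge k)
  obtain ⟨hY1, hY2, hY3⟩ := D.hY k
  have hHk := D.hH k
  obtain ⟨r1, hr1, hr1p⟩ := Nat.exists_infinite_primes ⌈2 * (D.Y k + D.H k)⌉₊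
  have hr1Y : D.Y k + D.H k ≤ D.w r1 := by
    have h1 := Nat.le_ceil (2 * (D.Y k + D.H k))
    have h2 : (⌈2 * (D.Y k + D.H k)⌉₊ : ℝ) ≤ r1 := by exact_mod_cast hr1
    have := D.half_le r1
    linarith
  obtain ⟨p, ⟨hpp, hpY⟩, hpmax⟩ := Set.exists_max_image {p : ℕ | p.Prime ∧ D.w p ≤ D.Y k} D.w
    (D.primes_finite _) ⟨r0, hr0p, hk1.trans hY1⟩
  obtain ⟨q, ⟨⟨hqp, hq1⟩, hq2⟩, hqmin⟩ := Set.exists_min_image
    ({p : ℕ | p.Prime ∧ D.w p ≤ D.w r1} ∩ {p : ℕ | D.Y k + D.H k ≤ D.w p}) D.w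
    ((D.primes_finite _).subset Set.inter_subset_left) ⟨r1, ⟨hr1p, le_rfl⟩, hr1Y⟩
  have hq2 : D.Y k + D.H k ≤ D.w q := hq2
  refine ⟨p, q, hpp, hqp, hr0Y.trans (hpmax r0 ⟨hr0p, hk1.trans hY1⟩), ?_, by linarith, ?_⟩
  · have h1 := (D.hM k (D.Y k) hY1 (by linarith)).1
    have h2 := D.two_le hpp
    have h3 : M (D.w p) ≤ M (D.Y k) := hmono h2 (h2.trans hpY) hpY
    have h4 : Real.log (D.w p) ≤ Real.log (D.Y k) := Real.log_le_log (by linarith) hpY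
    have h5 : 0 ≤ Real.log (D.w p) := Real.log_nonneg (by linarith)
    have h6 : 1 ≤ M (D.Y k) := hM1 _ (h2.trans hpY)
    have h7 : M (D.w p) * Real.log (D.w p) ≤ M (D.Y k) * Real.log (D.Y k) :=
      mul_le_mul h3 h4 h5 (by linarith)
    linarith
  · intro r hr
    rcases le_or_gt (D.w r) (D.Y k) with h1 | h1
    · exact Or.inl (hpmax r ⟨hr, h1⟩)
    · right
      rcases lt_or_ge (D.w r) (D.Y k + D.H k) with h2 | h2
      · exfalso
        have h3 : r ∈ D.S k := (D.mem_iff hr).1 ⟨by linarith, by linarith⟩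
        have h4 := D.w_of_mem h3
        rw [h4] at h1 h2
        exact hY3 r h3 ⟨h1, h2⟩
      · rcases le_or_gt (D.w r) (D.w r1) with h3 | h3
        · exact hqmin r ⟨⟨hr, h3⟩, h2⟩
        · exact hq1.trans h3.le

end WData

end Pool.Agent.BG
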