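import Pool.Agent.Lib_MP_7ba156_nt.Zeta

/-!
# MP_7ba156_nt: generalised primes close to the primes, with long gaps
-/

namespace Pool.Agent.BG

open Finset

theorem exists_eta {θ : ℝ} {M : ℝ → ℝ}
    (hM : ∀ ε > 0, ∃ C, ∀ x, 2 ≤ x → M x ≤ C * x ^ (θ + ε)) {τ : ℝ} (hτ : θ < τ) :
    ∃ C η, θ < η ∧ η < τ ∧ ∀ x, 2 ≤ x → M x ≤ C * x ^ η := by
  obtain ⟨C, hC⟩ := hM ((τ - θ) / 2) (by linarith)
  exact ⟨C, θ + (τ - θ) / 2, by linarith, by linarith, hC⟩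

theorem main (θ : ℝ) (hθ0 : 0 ≤ θ) (hθ1 : θ < 1) (M : ℝ → ℝ) (hmono : MonotoneOn M (Set.Ici 2))
    (hM1 : ∀ x, 2 ≤ x → 1 ≤ M x)
    (hM : ∀ ε > 0, ∃ C, ∀ x, 2 ≤ x → M x ≤ C * x ^ (θ + ε)) :
    ∃ f : ℕ →*₀ ℝ,
      (∀ p : ℕ, p.Prime → 1 < f p ∧ |f p - p| ≤ M p * Real.log p) ∧
      (∀ x : ℝ, {n : ℕ | f n ≤ x}.Finite) ∧
      (∀ x : ℝ, 2 ≤ x → |(({p : ℕ | p.Prime ∧ f p ≤ x} : Set ℕ).ncard : ℝ) -
        ({p : ℕ | p.Prime ∧ (p : ℝ) ≤ x} : Set ℕ).ncard| ≤ M x) ∧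
      (∀ ε > 0, ∃ C : ℝ, ∀ x : ℝ, 1 ≤ x →
        |(({n : ℕ | 0 < n ∧ f n ≤ x} : Set ℕ).ncard : ℝ) - x| ≤ C * x ^ (θ + ε)) ∧
      (∃ D : ℂ → ℂ, DifferentiableOn ℂ D {s | θ < s.re} ∧
        (∀ ε > 0, ∃ C > 0, ∀ s : ℂ, θ + ε ≤ s.re → 1 / C ≤ ‖D s‖ ∧ ‖D s‖ ≤ C) ∧
        ∀ s : ℂ, 1 < s.re →
          HasSum (fun n : ℕ => ((f n : ℝ) : ℂ) ^ (-s)) (riemannZeta s * D s)) ∧
      ∀ Y : ℝ, ∃ p q : ℕ, p.Prime ∧ q.Prime ∧ Y ≤ f p ∧ f p < f q ∧
        M (f p) * Real.log (f p) / 300 ≤ f q - f p ∧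
        ∀ r : ℕ, r.Prime → f r ≤ f p ∨ f q ≤ f r := by
  obtain ⟨C1, η1, hη1, hη1', hC1⟩ := exists_eta hM hθ1
  obtain ⟨D⟩ := exists_wdata hmono hM1 hη1' hC1
  have hp : ∀ p : ℕ, p.Prime → ext D.w p = D.w p := fun p hp => ext_prime hp
  have hset : ∀ x : ℝ, {p : ℕ | p.Prime ∧ ext D.w p ≤ x} = {p : ℕ | p.Prime ∧ D.w p ≤ x} := by
    intro x
    ext p
    simp only [Set.mem_ofPred_eq]
    exact and_congr_right fun h => by rw [hp p h]
  refine ⟨ext D.w, ?_, ?_, ?_, ?_, ⟨D.Q, ?_, ?_, ?_⟩, ?_⟩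
  · intro p hpp
    rw [hp p hpp]
    exact ⟨D.good.one_lt hpp, D.displacement hpp hM1⟩
  · intro x
    refine ((D.good.gi_finite x).union (Set.finite_singleton 0)).subset fun n hn => ?_
    rcases Nat.eq_zero_or_pos n with h0 | h0
    · exact Or.inr h0
    · exact Or.inl ⟨h0, hn⟩
  · intro x hx
    rw [hset x]
    exact D.prime_count hmono hx hM1
  · intro ε hε
    have hτ : θ < min (θ + ε) 1 := lt_min (by linarith) hθ1
    obtain ⟨C, η, hη, hη', hC⟩ := exists_eta hM hτ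
    obtain ⟨B, hB⟩ := D.cnt_le (by linarith) hC hη' (min_le_right _ _)
    have hB0 : 0 ≤ B := by
      have := hB 1 one_pos
      rw [Real.one_rpow, mul_one] at this
      exact (abs_nonneg _).trans this
    refine ⟨B, fun x hx => (hB x (by linarith)).trans ?_⟩
    refine mul_le_mul_of_nonneg_left ?_ hB0
    exact Real.rpow_le_rpow_of_exponent_le hx (min_le_left _ _)
  · intro s hs
    obtain ⟨C, η, hη, hη', hC⟩ := exists_eta hM (show θ < s.re from hs)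
    exact (D.Q_diff (by linarith) hC hη').differentiableWithinAt
  · intro ε hε
    obtain ⟨C, η, hη, hη', hC⟩ := exists_eta hM (show θ < θ + ε by linarith)
    exact D.Q_bound (by linarith) hC hη'
  · intro s hs
    exact D.zeta_eq hs
  · intro Y
    obtain ⟨p, q, h1, h2, h3, h4, h5, h6⟩ := D.gap hmono hM1 Y
    refine ⟨p, q, h1, h2, ?_, ?_, ?_, fun r hr => ?_⟩
    · rw [hp p h1]; exact h3
    · rw [hp p h1, hp q h2]; exact h5
    · rw [hp p h1, hp q h2]; exact h4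
    · rw [hp p h1, hp q h2, hp r hr]; exact h6 r hr

/-- `exp (√(log x))` grows slower than every power of `x` -/
theorem slow (ε : ℝ) (hε : 0 < ε) : ∃ C : ℝ, ∀ x : ℝ, 2 ≤ x →
    Real.exp (Real.sqrt (Real.log x)) ≤ C * x ^ (0 + ε) := by
  refine ⟨Real.exp (1 / ε), fun x hx => ?_⟩
  have hx0 : 0 < x := by linarith
  have hl : 0 ≤ Real.log x := Real.log_nonneg (by linarith)
  rw [zero_add, Real.rpow_def_of_pos hx0, ← Real.exp_add]
  refine Real.exp_le_exp.2 ?_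
  set y := Real.sqrt (Real.log x) with hy
  have h1 : Real.log x = y ^ 2 := (Real.sq_sqrt hl).symm
  have h2 : 0 ≤ y := Real.sqrt_nonneg _
  rw [h1]
  have h3 : 1 / ε + y ^ 2 * ε - y = (1 / ε) * ((ε * y) ^ 2 - ε * y + 1) := by
    field_simp
    ring
  have h4 : 0 ≤ (ε * y) ^ 2 - ε * y + 1 := by nlinarith [sq_nonneg (ε * y - 1)]
  have h5 : 0 ≤ 1 / ε := by positivity
  nlinarith [mul_nonneg h5 h4]

/-- `exp (√(log x))` is eventually larger than every power of `log x` -/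
theorem fast (t : ℝ) : ∃ Y : ℝ, ∀ x : ℝ, Y ≤ x →
    (Real.log x) ^ t < Real.exp (Real.sqrt (Real.log x)) * Real.log x / 300 := by
  have h1 : Filter.Tendsto (fun x : ℝ => Real.sqrt (Real.log x)) Filter.atTop Filter.atTop :=
    Real.tendsto_sqrt_atTop.comp Real.tendsto_log_atTop
  have h2 := (isLittleO_rpow_exp_atTop (2 * t - 2)).def (show (0 : ℝ) < 1 / 600 by norm_num)
  have h3 := h1.eventually h2
  have h4 : ∀ᶠ x : ℝ in Filter.atTop, (Real.log x) ^ t <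
      Real.exp (Real.sqrt (Real.log x)) * Real.log x / 300 := by
    filter_upwards [h3, Filter.eventually_ge_atTop 3] with x hx hx3
    have hl : 0 < Real.log x := Real.log_pos (by linarith)
    set y := Real.sqrt (Real.log x) with hy
    have hy0 : 0 < y := Real.sqrt_pos.2 hl
    have h5 : Real.log x = y ^ (2 : ℝ) := by
      rw [Real.rpow_two]
      exact (Real.sq_sqrt hl.le).symm
    rw [Real.norm_of_nonneg (Real.rpow_nonneg hy0.le _), Real.norm_of_nonneg (Real.exp_pos _).le]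
      at hx
    rw [h5, ← Real.rpow_mul hy0.le]
    have h6 : y ^ (2 * t) = y ^ (2 * t - 2) * y ^ (2 : ℝ) := by
      rw [← Real.rpow_add hy0]
      congr 1
      ring
    have h7 : 0 < y ^ (2 : ℝ) := Real.rpow_pos_of_pos hy0 _
    rw [h6]
    have h8 : y ^ (2 * t - 2) * y ^ (2 : ℝ) ≤ (1 / 600 * Real.exp y) * y ^ (2 : ℝ) :=
      mul_le_mul_of_nonneg_right hx h7.le
    have h9 : 0 < Real.exp y * y ^ (2 : ℝ) := mul_pos (Real.exp_pos y) h7
    linarith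
  exact Filter.eventually_atTop.1 h4

end Pool.Agent.BG
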