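import Pool.Agent.Lib_MP_7ba156_nt.Win

/-!
# MP_7ba156_nt: the choice of the windows
-/

namespace Pool.Agent.BG

open Finset

/-- Chebyshev's upper bound for the primes in `[X, 2X]` -/
theorem cheb (X : ℕ) (hX : 2 ≤ X) :
    (((Finset.Icc X (2 * X)).filter Nat.Prime).card : ℝ) * Real.log X ≤ 2 * X * Real.log 4 := by
  set P := (Finset.Icc X (2 * X)).filter Nat.Prime with hP
  have h1 : X ^ P.card ≤ ∏ p ∈ P, p := by
    rw [← Finset.prod_const]
    refine Finset.prod_le_prod' fun p hp => ?_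
    exact (Finset.mem_Icc.1 (Finset.mem_filter.1 hp).1).1
  have h2 : ∏ p ∈ P, p ≤ primorial (2 * X) := by
    unfold primorial
    refine Finset.prod_le_prod_of_subset_of_one_le' ?_ ?_
    · intro p hp
      rw [hP, Finset.mem_filter, Finset.mem_Icc] at hp
      rw [Finset.mem_filter, Finset.mem_range]
      exact ⟨by omega, hp.2⟩
    · intro p hp _
      exact (Finset.mem_filter.1 hp).2.one_lt.le
  have h3 : X ^ P.card ≤ 4 ^ (2 * X) := (h1.trans h2).trans (primorial_le_four_pow _)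
  have h4 : (X : ℝ) ^ P.card ≤ 4 ^ (2 * X) := by exact_mod_cast h3
  have hX0 : (0 : ℝ) < X := by exact_mod_cast (by omega : 0 < X)
  have h5 := Real.log_le_log (by positivity) h4
  rw [Real.log_pow, Real.log_pow] at h5
  push_cast at h5
  linarith

/-- a window with few primes -/
theorem exists_window (X : ℕ) (hX : 2 ≤ X) {h m : ℝ} (hh : 0 < h) (hhX : 14 * h ≤ X)
    (hm : 28 * h * Real.log 4 < m * Real.log X) :
    ∃ a : ℝ, (X : ℝ) ≤ a ∧ a + 6 * h ≤ 2 * X ∧
      (((Finset.Icc X (2 * X)).filter fun p : ℕ => p.Prime ∧ a ≤ (p : ℝ) ∧ (p : ℝ) ≤ a + 6 * h).card : ℝ)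
        ≤ m := by
  by_contra hcon
  push Not at hcon
  have hX0 : (0 : ℝ) < X := by exact_mod_cast (by omega : 0 < X)
  have hlog : 0 < Real.log X := Real.log_pos (by exact_mod_cast (by omega : 1 < X))
  have hlog4 : 0 < Real.log 4 := Real.log_pos (by norm_num)
  have hm0 : 0 < m := by
    have : 0 < m * Real.log X := lt_of_le_of_lt (by positivity) hm
    exact pos_of_mul_pos_left this hlog.le
  set L : ℕ := ⌊(X : ℝ) / (7 * h)⌋₊ with hL
  have hL1 : (X : ℝ) / (14 * h) ≤ L := by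
    have h1 := Nat.lt_floor_add_one ((X : ℝ) / (7 * h))
    rw [← hL] at h1
    have h2 : (X : ℝ) / (7 * h) = 2 * ((X : ℝ) / (14 * h)) := by field_simp; ring
    have h3 : 1 ≤ (X : ℝ) / (14 * h) := by
      rw [one_le_div (by positivity)]; exact hhX
    linarith
  have hL2 : (L : ℝ) * (7 * h) ≤ X := by
    have := Nat.floor_le (show 0 ≤ (X : ℝ) / (7 * h) by positivity)
    rwa [← hL, le_div_iff₀ (by positivity)] at this
  set W : ℕ → Finset ℕ := fun i => (Finset.Icc X (2 * X)).filter fun p : ℕ => p.Prime ∧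
    (X : ℝ) + 7 * h * i ≤ (p : ℝ) ∧ (p : ℝ) ≤ (X : ℝ) + 7 * h * i + 6 * h with hW
  have hW1 : ∀ i ∈ Finset.range L, m < ((W i).card : ℝ) := by
    intro i hi
    rw [Finset.mem_range] at hi
    refine hcon _ ?_ ?_
    · have : 0 ≤ 7 * h * (i : ℝ) := by positivity
      linarith
    · have h1 : (i : ℝ) + 1 ≤ L := by exact_mod_cast hi
      have h2 : ((i : ℝ) + 1) * (7 * h) ≤ L * (7 * h) := by gcongr
      nlinarith
  have hW2 : ((Finset.range L).biUnion W).card = ∑ i ∈ Finset.range L, (W i).card := by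
    refine Finset.card_biUnion ?_
    have key : ∀ i j : ℕ, i < j → Disjoint (W i) (W j) := by
      intro i j hij
      rw [Finset.disjoint_left]
      intro p hp hp'
      simp only [hW, Finset.mem_filter] at hp hp'
      have h1 : (i : ℝ) + 1 ≤ j := by exact_mod_cast hij
      have h2 : 7 * h * ((i : ℝ) + 1) ≤ 7 * h * j := by gcongr
      linarith [hp.2.2.2, hp'.2.2.1]
    intro i _ j _ hij
    rcases lt_or_gt_of_ne hij with h1 | h1
    · exact key i j h1
    · exact (key j i h1).symm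
  have hW3 : ((Finset.range L).biUnion W) ⊆ (Finset.Icc X (2 * X)).filter Nat.Prime := by
    intro p hp
    rw [Finset.mem_biUnion] at hp
    obtain ⟨i, -, hi⟩ := hp
    simp only [hW, Finset.mem_filter] at hi
    rw [Finset.mem_filter]
    exact ⟨hi.1, hi.2.1⟩
  have h1 : (L : ℝ) * m ≤ (((Finset.Icc X (2 * X)).filter Nat.Prime).card : ℝ) := by
    calc (L : ℝ) * m = ∑ i ∈ Finset.range L, m := by simp
      _ ≤ ∑ i ∈ Finset.range L, ((W i).card : ℝ) := Finset.sum_le_sum fun i hi => (hW1 i hi).le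
      _ = (((Finset.range L).biUnion W).card : ℝ) := by rw [hW2]; push_cast; rfl
      _ ≤ _ := by exact_mod_cast Finset.card_le_card hW3
  have h2 := cheb X hX
  have h3 : (X : ℝ) / (14 * h) * m * Real.log X ≤ 2 * X * Real.log 4 := by
    refine le_trans ?_ h2
    gcongr
    exact (mul_le_mul_of_nonneg_right hL1 hm0.le).trans h1
  have h4 : (X : ℝ) / (14 * h) * m * Real.log X = X * (m * Real.log X) / (14 * h) := by ring
  rw [h4, div_le_iff₀ (by positivity)] at h3
  have h5 : X * (28 * h * Real.log 4) < X * (m * Real.log X) := by gcongr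
  nlinarith

/-- scales where `M` does not grow too fast -/
theorem exists_scale {M : ℝ → ℝ} (hM1 : ∀ x, 2 ≤ x → 1 ≤ M x) {C η : ℝ} (hη : η < 1)
    (hC : ∀ x, 2 ≤ x → M x ≤ C * x ^ η) (J : ℕ) :
    ∃ j, J ≤ j ∧ M (2 ^ (j + 1)) ≤ 2 * M (2 ^ j) := by
  by_contra hcon
  push Not at hcon
  set J' := J + 1 with hJ'
  have h1 : ∀ i : ℕ, (2 : ℝ) ^ i ≤ M (2 ^ (J' + i)) := by
    intro i
    induction i with
    | zero =>
      simp only [pow_zero, add_zero]
      refine hM1 _ ?_
      calc (2 : ℝ) = 2 ^ 1 := by norm_num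
        _ ≤ 2 ^ J' := pow_le_pow_right₀ (by norm_num) (by omega)
    | succ i ih =>
      have := hcon (J' + i) (by omega)
      rw [pow_succ, ← add_assoc]
      linarith
  have h2 : ∀ i : ℕ, ((2 : ℝ) ^ (1 - η)) ^ i ≤ C * ((2 : ℝ) ^ J') ^ η := by
    intro i
    have h3 := (h1 i).trans (hC (2 ^ (J' + i)) (by
      calc (2 : ℝ) = 2 ^ 1 := by norm_num
        _ ≤ 2 ^ (J' + i) := pow_le_pow_right₀ (by norm_num) (by omega)))
    have e1 : ((2 : ℝ) ^ (J' + i)) ^ η = ((2 : ℝ) ^ J') ^ η * ((2 : ℝ) ^ η) ^ i := by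
      rw [pow_add, Real.mul_rpow (by positivity) (by positivity)]
      congr 1
      rw [← Real.rpow_natCast, ← Real.rpow_natCast, ← Real.rpow_mul zero_le_two,
        ← Real.rpow_mul zero_le_two, mul_comm]
    have e2 : (2 : ℝ) ^ i = ((2 : ℝ) ^ (1 - η)) ^ i * ((2 : ℝ) ^ η) ^ i := by
      rw [← mul_pow, ← Real.rpow_add zero_lt_two, sub_add_cancel, Real.rpow_one]
    rw [e1, e2, ← mul_assoc] at h3
    exact le_of_mul_le_mul_right h3 (by positivity)
  have h3 : 1 < (2 : ℝ) ^ (1 - η) := Real.one_lt_rpow one_lt_two (by linarith)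
  obtain ⟨i, hi⟩ := pow_unbounded_of_one_lt (C * ((2 : ℝ) ^ J') ^ η) h3
  exact absurd (h2 i) (not_le.2 hi)

/-- selection of a window -/
theorem select {M : ℝ → ℝ} (hmono : MonotoneOn M (Set.Ici 2)) (hM1 : ∀ x, 2 ≤ x → 1 ≤ M x)
    {C η : ℝ} (hη : η < 1) (hC : ∀ x, 2 ≤ x → M x ≤ C * x ^ η) (Y : ℝ) :
    ∃ a h : ℝ, 2 ≤ a ∧ Y ≤ a ∧ 0 < h ∧ 40 * h ≤ a ∧
      (({p : ℕ | p.Prime ∧ a ≤ (p : ℝ) ∧ (p : ℝ) ≤ a + 6 * h} : Set ℕ).ncard : ℝ) ≤ M a ∧
      ∀ y, a ≤ y → y ≤ a + 6 * h → M y * Real.log y / 300 ≤ h ∧ 6 * h ≤ M y * Real.log y := by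
  -- `M x log x ≤ x` for large `x`
  have hC0 : 0 < C := by
    have h1 := hM1 2 le_rfl
    have h2 := hC 2 le_rfl
    have h3 : (0 : ℝ) < 2 ^ η := Real.rpow_pos_of_pos zero_lt_two _
    by_contra h4
    push Not at h4
    nlinarith
  have hlit : ∀ᶠ x : ℝ in Filter.atTop, M x * Real.log x ≤ x := by
    have h1 := (isLittleO_log_rpow_atTop (show 0 < 1 - η by linarith)).def
      (show 0 < 1 / C by positivity)
    filter_upwards [h1, Filter.eventually_ge_atTop 2] with x hx hx2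
    have hx0 : 0 < x := by linarith
    have hl0 : 0 ≤ Real.log x := Real.log_nonneg (by linarith)
    rw [Real.norm_of_nonneg hl0, Real.norm_of_nonneg (Real.rpow_nonneg hx0.le _)] at hx
    calc M x * Real.log x ≤ (C * x ^ η) * (1 / C * x ^ (1 - η)) := by
          refine mul_le_mul (hC x hx2) hx hl0 (by positivity)
      _ = x ^ η * x ^ (1 - η) := by field_simp
      _ = x := by rw [← Real.rpow_add hx0]; simp
  obtain ⟨x0, hx0⟩ := Filter.eventually_atTop.1 hlit
  obtain ⟨J, hJ⟩ := pow_unbounded_of_one_lt (max x0 Y) (one_lt_two (α := ℝ))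
  obtain ⟨j, hj1, hj2⟩ := exists_scale hM1 hη hC (J + 1)
  set X : ℕ := 2 ^ j with hXdef
  have hXr : (X : ℝ) = 2 ^ j := by rw [hXdef]; push_cast; rfl
  have hX2 : 2 ≤ X := by
    calc 2 = 2 ^ 1 := by norm_num
      _ ≤ 2 ^ j := Nat.pow_le_pow_right (by norm_num) (by omega)
  have hX2r : (2 : ℝ) ≤ X := by exact_mod_cast hX2
  have hXY : max x0 Y ≤ X := by
    refine hJ.le.trans ?_
    rw [hXr]
    exact pow_le_pow_right₀ one_le_two (by omega)
  have hXx0 : x0 ≤ X := (le_max_left _ _).trans hXY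
  have hXY' : Y ≤ X := (le_max_right _ _).trans hXY
  have hMX : 1 ≤ M X := hM1 X hX2r
  have hMlog := hx0 X hXx0
  have hlog : 0 < Real.log X := Real.log_pos (by linarith)
  set h : ℝ := M X * Real.log X / 70 with hh
  have hh0 : 0 < h := by positivity
  have hlog4 : Real.log 4 < 1.4 := by
    have : (4 : ℝ) = 2 ^ 2 := by norm_num
    rw [this, Real.log_pow]
    have := Real.log_two_lt_d9
    push_cast
    linarith
  obtain ⟨a, ha1, ha2, ha3⟩ := exists_window X hX2 hh0 (m := M X) (by rw [hh]; linarith) (by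
    rw [hh]
    have h1 : 0 < M X * Real.log X := by positivity
    have h2 : 28 * (M X * Real.log X / 70) * Real.log 4 =
        (M X * Real.log X) * (0.4 * Real.log 4) := by ring
    rw [h2]
    nlinarith)
  have ha0 : 2 ≤ a := hX2r.trans ha1
  refine ⟨a, h, ha0, hXY'.trans ha1, hh0, by rw [hh]; linarith, ?_, ?_⟩
  · have e : ({p : ℕ | p.Prime ∧ a ≤ (p : ℝ) ∧ (p : ℝ) ≤ a + 6 * h} : Set ℕ) =
        (((Finset.Icc X (2 * X)).filter fun p : ℕ => p.Prime ∧ a ≤ (p : ℝ) ∧ (p : ℝ) ≤ a + 6 * h :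
          Finset ℕ) : Set ℕ) := by
      ext p
      simp only [Set.mem_ofPred_eq, Finset.coe_filter, Finset.mem_Icc]
      constructor
      · rintro ⟨h1, h2, h3⟩
        refine ⟨⟨?_, ?_⟩, h1, h2, h3⟩
        · exact_mod_cast ha1.trans h2
        · exact_mod_cast h3.trans ha2
      · rintro ⟨-, h1, h2, h3⟩
        exact ⟨h1, h2, h3⟩
    rw [e, Set.ncard_coe_finset]
    exact ha3.trans (hmono hX2r ha0 ha1)
  · intro y hy1 hy2
    have hy0 : (X : ℝ) ≤ y := ha1.trans hy1
    have hy3 : y ≤ 2 * X := hy2.trans ha2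
    have hy4 : 2 ≤ y := hX2r.trans hy0
    have k1 : M y ≤ 2 * M X := by
      refine (hmono (show (2 : ℝ) ≤ y from hy4) (show (2 : ℝ) ≤ 2 * X by linarith) hy3).trans ?_
      rw [hXr, ← pow_succ']
      exact hj2
    have k2 : Real.log y ≤ 2 * Real.log X := by
      calc Real.log y ≤ Real.log (2 * X) := Real.log_le_log (by linarith) hy3
        _ = Real.log 2 + Real.log X := Real.log_mul (by norm_num) (by linarith)
        _ ≤ 2 * Real.log X := by
          have := Real.log_le_log zero_lt_two hX2r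
          linarith
    have k3 : M X ≤ M y := hmono hX2r hy4 hy0
    have k4 : Real.log X ≤ Real.log y := Real.log_le_log (by linarith) hy0
    have k5 : 0 < Real.log y := hlog.trans_le k4
    constructor
    · have : M y * Real.log y ≤ (2 * M X) * (2 * Real.log X) :=
        mul_le_mul k1 k2 k5.le (by linarith)
      rw [hh]
      linarith
    · have : M X * Real.log X ≤ M y * Real.log y :=
        mul_le_mul k3 k4 hlog.le (by linarith)
      rw [hh]
      linarith [mul_pos (by linarith : 0 < M X) hlog]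

end Pool.Agent.BG
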