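import Pool.Agent.Lib_MP_7ba156_nt.Sel

/-!
# MP_7ba156_nt: the sequence of windows and the moved primes
-/

namespace Pool.Agent.BG

open Finset

/-- a sequence of windows -/
structure WData (M : ℝ → ℝ) where
  A : ℕ → ℝ
  H : ℕ → ℝ
  S : ℕ → Finset ℕ
  u : ℕ → ℕ → ℝ
  Y : ℕ → ℝ
  hA : ∀ k, 4 ≤ A k
  hA4 : ∀ k, 4 * A k ≤ A (k + 1)
  hH : ∀ k, 0 < H k
  hAH : ∀ k, 40 * H k ≤ A k
  hS : ∀ k p, p ∈ S k ↔ p.Prime ∧ A k ≤ (p : ℝ) ∧ (p : ℝ) ≤ A k + 6 * H k
  hcard : ∀ k, ((S k).card : ℝ) ≤ M (A k)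
  hM : ∀ k y, A k ≤ y → y ≤ A k + 6 * H k →
    M y * Real.log y / 300 ≤ H k ∧ 6 * H k ≤ M y * Real.log y
  hu : ∀ k p, A k ≤ u k p ∧ u k p ≤ A k + 6 * H k
  hprod : ∀ k, (∏ p ∈ S k, ((1 - 1 / (p : ℝ)) / (1 - 1 / u k p))) = 1
  hY : ∀ k, A k ≤ Y k ∧ Y k + H k ≤ A k + 6 * H k ∧
    ∀ p ∈ S k, ¬ (Y k < u k p ∧ u k p < Y k + H k)

theorem exists_wdata {M : ℝ → ℝ} (hmono : MonotoneOn M (Set.Ici 2)) (hM1 : ∀ x, 2 ≤ x → 1 ≤ M x)
    {C η : ℝ} (hη : η < 1) (hC : ∀ x, 2 ≤ x → M x ≤ C * x ^ η) : Nonempty (WData M) := by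
  choose a h h2 hY hh hah hc hM using select hmono hM1 hη hC
  have hfin : ∀ Y : ℝ, ({p : ℕ | p.Prime ∧ a Y ≤ (p : ℝ) ∧ (p : ℝ) ≤ a Y + 6 * h Y} :
      Set ℕ).Finite := by
    intro Y
    refine (Set.finite_Iic ⌊a Y + 6 * h Y⌋₊).subset fun p hp => ?_
    exact Nat.le_floor hp.2.2
  set S : ℝ → Finset ℕ := fun Y => (hfin Y).toFinset with hSdef
  have hS : ∀ Y p, p ∈ S Y ↔ p.Prime ∧ a Y ≤ (p : ℝ) ∧ (p : ℝ) ≤ a Y + 6 * h Y := by
    intro Y p
    rw [hSdef, Set.Finite.mem_toFinset]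
    rfl
  have hwin := fun Y => window (h2 Y) (hh Y) (hah Y) (S Y) fun p hp => ((hS Y p).1 hp).2
  choose u hu hprod y hy1 hy2 hy3 using hwin
  -- the parameters
  let Z : ℕ → ℝ := fun k => Nat.rec 4 (fun _ z => 4 * a z) k
  have hZ0 : Z 0 = 4 := rfl
  have hZs : ∀ k, Z (k + 1) = 4 * a (Z k) := fun k => rfl
  have hA : ∀ k, 4 ≤ a (Z k) := by
    intro k
    cases k with
    | zero => exact hY 4
    | succ k =>
      have h3 := hY (Z (k + 1))
      rw [hZs] at h3 ⊢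
      have := h2 (Z k)
      linarith
  exact ⟨{
    A := fun k => a (Z k)
    H := fun k => h (Z k)
    S := fun k => S (Z k)
    u := fun k => u (Z k)
    Y := fun k => y (Z k)
    hA := hA
    hA4 := fun k => by
      have := hY (Z (k + 1))
      rw [hZs] at this
      exact this
    hH := fun k => hh _
    hAH := fun k => hah _
    hS := fun k p => hS _ _
    hcard := fun k => by
      have := hc (Z k)
      rwa [← Set.ncard_coe_finset, hSdef, Set.Finite.coe_toFinset]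
    hM := fun k => hM _
    hu := fun k => hu _
    hprod := fun k => hprod _
    hY := fun k => ⟨hy1 _, hy2 _, hy3 _⟩ }⟩

namespace WData

variable {M : ℝ → ℝ} (D : WData M)

theorem A_pos (k : ℕ) : 0 < D.A k := by linarith [D.hA k]

theorem A_le {k l : ℕ} (h : k < l) : 4 * D.A k ≤ D.A l := by
  induction l with
  | zero => omega
  | succ l ih =>
    rcases Nat.lt_succ_iff_lt_or_eq.1 h with h1 | rfl
    · have h2 := ih h1
      have h3 := D.hA4 l
      have h4 := D.A_pos l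
      linarith
    · exact D.hA4 k

theorem A_ge (k : ℕ) : (2 : ℝ) ^ k ≤ D.A k := by
  induction k with
  | zero => simpa using (by linarith [D.hA 0] : (1 : ℝ) ≤ D.A 0)
  | succ k ih =>
    have := D.hA4 k
    have h4 := D.A_pos k
    rw [pow_succ]
    linarith

theorem top_lt {k l : ℕ} (h : k < l) : D.A k + 6 * D.H k < D.A l := by
  have h1 := D.A_le h
  have h2 := D.hAH k
  have h3 := D.A_pos k
  linarith

/-- the windows are disjoint -/
theorem eq_of_mem {k l : ℕ} {x : ℝ} (h1 : D.A k ≤ x) (h2 : x ≤ D.A k + 6 * D.H k)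
    (h3 : D.A l ≤ x) (h4 : x ≤ D.A l + 6 * D.H l) : k = l := by
  rcases lt_trichotomy k l with h | h | h
  · have := D.top_lt h
    linarith
  · exact h
  · have := D.top_lt h
    linarith

open Classical in
/-- the moved primes -/
noncomputable def w (p : ℕ) : ℝ :=
  if h : ∃ k, p ∈ D.S k then D.u (Nat.find h) p else p

theorem w_of_mem {k p : ℕ} (h : p ∈ D.S k) : D.w p = D.u k p := by
  classical
  have h1 : ∃ k, p ∈ D.S k := ⟨k, h⟩
  have h2 := Nat.find_spec h1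
  have h3 : Nat.find h1 = k :=
    D.eq_of_mem ((D.hS _ _).1 h2).2.1 ((D.hS _ _).1 h2).2.2 ((D.hS _ _).1 h).2.1
      ((D.hS _ _).1 h).2.2
  unfold w
  rw [dif_pos h1]
  convert rfl using 2
  exact h3.symm

theorem w_of_notMem {p : ℕ} (h : ∀ k, p ∉ D.S k) : D.w p = p := by
  unfold w
  rw [dif_neg]
  rintro ⟨k, hk⟩
  exact h k hk

theorem w_mem {k p : ℕ} (h : p ∈ D.S k) : D.A k ≤ D.w p ∧ D.w p ≤ D.A k + 6 * D.H k := by
  rw [D.w_of_mem h]
  exact D.hu k p

/-- a prime and its new position are in the same window -/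
theorem mem_iff {k p : ℕ} (hp : p.Prime) :
    (D.A k ≤ D.w p ∧ D.w p ≤ D.A k + 6 * D.H k) ↔ p ∈ D.S k := by
  constructor
  · rintro ⟨h1, h2⟩
    by_cases h3 : ∃ l, p ∈ D.S l
    · obtain ⟨l, hl⟩ := h3
      have h4 := D.w_mem hl
      have := D.eq_of_mem h1 h2 h4.1 h4.2
      rwa [this]
    · push Not at h3
      rw [D.w_of_notMem h3] at h1 h2
      exact (D.hS k p).2 ⟨hp, h1, h2⟩
  · exact D.w_mem

theorem half_le (p : ℕ) : (p : ℝ) / 2 ≤ D.w p := by
  by_cases h : ∃ k, p ∈ D.S k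
  · obtain ⟨k, hk⟩ := h
    have h1 := D.w_mem hk
    have h2 := ((D.hS k p).1 hk).2
    have h3 := D.hAH k
    have h4 := D.A_pos k
    linarith [h1.1, h2.2]
  · push Not at h
    rw [D.w_of_notMem h]
    have : (0 : ℝ) ≤ p := Nat.cast_nonneg _
    linarith

theorem two_le {p : ℕ} (hp : p.Prime) : 2 ≤ D.w p := by
  by_cases h : ∃ k, p ∈ D.S k
  · obtain ⟨k, hk⟩ := h
    have h1 := D.w_mem hk
    linarith [D.hA k]
  · push Not at h
    rw [D.w_of_notMem h]
    exact_mod_cast hp.two_le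

theorem good : Good D.w := by
  intro p hp
  rw [Real.sqrt_le_left (by linarith [D.two_le hp])]
  have h1 := D.half_le p
  have h2 := D.two_le hp
  nlinarith

theorem w_two : D.w 2 = 2 := by
  rw [D.w_of_notMem fun k hk => ?_]
  · norm_num
  · have := ((D.hS k 2).1 hk).2.1
    have h4 := D.hA k
    norm_num at this
    linarith

theorem displacement {p : ℕ} (hp : p.Prime) (hM1 : ∀ x, 2 ≤ x → 1 ≤ M x) :
    |D.w p - p| ≤ M p * Real.log p := by
  by_cases h : ∃ k, p ∈ D.S k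
  · obtain ⟨k, hk⟩ := h
    have h1 := D.w_mem hk
    have h2 := ((D.hS k p).1 hk).2
    have h3 := (D.hM k p h2.1 h2.2).2
    rw [abs_le]
    constructor <;> linarith
  · push Not at h
    rw [D.w_of_notMem h, sub_self, abs_zero]
    have h2 : (2 : ℝ) ≤ p := by exact_mod_cast hp.two_le
    have h3 := hM1 p h2
    have h4 : 0 ≤ Real.log p := Real.log_nonneg (by linarith)
    exact mul_nonneg (by linarith) h4

/-- the primes of the first windows -/
noncomputable def T (K : ℕ) : Finset ℕ := (Finset.range K).biUnion D.S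

theorem S_disj : Set.PairwiseDisjoint (Set.univ : Set ℕ) D.S := by
  intro k _ l _ hkl
  rw [Function.onFun, Finset.disjoint_left]
  intro p hk hl
  have h1 := ((D.hS k p).1 hk).2
  have h2 := ((D.hS l p).1 hl).2
  exact hkl (D.eq_of_mem h1.1 h1.2 h2.1 h2.2)

theorem T_prime {K p : ℕ} (h : p ∈ D.T K) : p.Prime := by
  unfold T at h
  rw [Finset.mem_biUnion] at h
  obtain ⟨k, -, hk⟩ := h
  exact ((D.hS k p).1 hk).1

theorem T_prod (K : ℕ) : (∏ p ∈ D.T K, ((1 - 1 / (p : ℝ)) / (1 - 1 / D.w p))) = 1 := by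
  unfold T
  rw [Finset.prod_biUnion fun k _ l _ hkl => D.S_disj (Set.mem_univ k) (Set.mem_univ l) hkl]
  refine Finset.prod_eq_one fun k _ => ?_
  refine (Finset.prod_congr rfl fun p hp => ?_).trans (D.hprod k)
  rw [D.w_of_mem hp]

/-- the moved primes are sparse -/
theorem T_sum {C η τ : ℝ} (hη0 : 0 ≤ η) (hC : ∀ x, 2 ≤ x → M x ≤ C * x ^ η) (hτ : η < τ) :
    ∃ B : ℝ, ∀ K, ∑ p ∈ D.T K, (p : ℝ) ^ (-τ) ≤ B := by
  have hC0 : 0 ≤ C := by
    have h1 := hC 4 (by norm_num)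
    have h2 : 0 ≤ M (D.A 0) := (Nat.cast_nonneg _).trans (D.hcard 0)
    have h3 := hC (D.A 0) (by linarith [D.hA 0])
    have h4 : 0 < D.A 0 ^ η := Real.rpow_pos_of_pos (D.A_pos 0) _
    by_contra h5
    push Not at h5
    nlinarith
  set r : ℝ := (2 : ℝ) ^ (η - τ) with hr
  have hr0 : 0 ≤ r := Real.rpow_nonneg zero_le_two _
  have hr1 : r < 1 := Real.rpow_lt_one_of_one_lt_of_neg one_lt_two (by linarith)
  refine ⟨C * (1 - r)⁻¹, fun K => ?_⟩
  unfold T
  rw [Finset.sum_biUnion fun k _ l _ hkl => D.S_disj (Set.mem_univ k) (Set.mem_univ l) hkl]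
  have hk : ∀ k ∈ Finset.range K, ∑ p ∈ D.S k, (p : ℝ) ^ (-τ) ≤ C * r ^ k := by
    intro k _
    have hA0 := D.A_pos k
    calc ∑ p ∈ D.S k, (p : ℝ) ^ (-τ) ≤ ∑ p ∈ D.S k, (D.A k) ^ (-τ) := by
          refine Finset.sum_le_sum fun p hp => ?_
          exact Real.rpow_le_rpow_of_nonpos hA0 ((D.hS k p).1 hp).2.1 (by linarith)
      _ = ((D.S k).card : ℝ) * (D.A k) ^ (-τ) := by simp
      _ ≤ (C * (D.A k) ^ η) * (D.A k) ^ (-τ) := by
          refine mul_le_mul_of_nonneg_right ?_ (Real.rpow_nonneg hA0.le _)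
          exact (D.hcard k).trans (hC _ (by linarith [D.hA k]))
      _ = C * (D.A k) ^ (η - τ) := by
          rw [mul_assoc, ← Real.rpow_add hA0]
          rfl
      _ ≤ C * ((2 : ℝ) ^ k) ^ (η - τ) := by
          refine mul_le_mul_of_nonneg_left ?_ hC0
          exact Real.rpow_le_rpow_of_nonpos (by positivity) (D.A_ge k) (by linarith)
      _ = C * r ^ k := by
          rw [hr, ← Real.rpow_natCast, ← Real.rpow_natCast, ← Real.rpow_mul zero_le_two,
            ← Real.rpow_mul zero_le_two, mul_comm (k : ℝ)]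
  refine (Finset.sum_le_sum hk).trans ?_
  rw [← Finset.mul_sum]
  refine mul_le_mul_of_nonneg_left ?_ hC0
  rw [← tsum_geometric_of_lt_one hr0 hr1]
  exact (summable_geometric_of_lt_one hr0 hr1).sum_le_tsum _ fun k _ => pow_nonneg hr0 k

theorem cnt_le {C η τ : ℝ} (hη0 : 0 ≤ η) (hC : ∀ x, 2 ≤ x → M x ≤ C * x ^ η) (hτ : η < τ)
    (hτ1 : τ ≤ 1) : ∃ B : ℝ, ∀ x : ℝ, 0 < x → |cnt D.w x - x| ≤ B * x ^ τ := by
  obtain ⟨B, hB⟩ := D.T_sum hη0 hC hτ
  refine cnt_bound (S := B) D.good (fun p _ => D.half_le p) (by linarith) hτ1 fun x => ?_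
  obtain ⟨K, hK⟩ := pow_unbounded_of_one_lt x one_lt_two
  refine ⟨D.T K, fun p hp => D.T_prime hp, D.T_prod K, hB K, fun p hp hpT => ?_⟩
  by_cases h : ∃ k, p ∈ D.S k
  · right
    obtain ⟨k, hk⟩ := h
    have hKk : K ≤ k := by
      by_contra h1
      push Not at h1
      exact hpT (Finset.mem_biUnion.2 ⟨k, Finset.mem_range.2 h1, hk⟩)
    have h2 : x < D.A k := by
      refine hK.trans_le (le_trans ?_ (D.A_ge k))
      exact pow_le_pow_right₀ one_le_two hKk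
    exact ⟨h2.trans_le ((D.hS k p).1 hk).2.1, h2.trans_le (D.w_mem hk).1⟩
  · left
    push Not at h
    exact D.w_of_notMem h

end WData

end Pool.Agent.BG
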