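import Pool.Agent.Lib_MP_7ba156_nt.Basic

/-!
# MP_7ba156_nt: the Dirichlet series over the generalised integers
-/

namespace Pool.Agent.BG

open Finset

theorem Good.ext_nonneg {v : ℕ → ℝ} (h : Good v) (n : ℕ) : 0 ≤ ext v n := by
  rcases Nat.eq_zero_or_pos n with rfl | hn
  · rw [map_zero]
  · exact (h.ext_pos hn).le

/-- the real summand -/
noncomputable def rs (v : ℕ → ℝ) (h : Good v) {σ : ℝ} (hσ : 0 < σ) : ℕ →*₀ ℝ where
  toFun n := (ext v n) ^ (-σ)
  map_zero' := by rw [map_zero, Real.zero_rpow (by linarith)]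
  map_one' := by rw [map_one, Real.one_rpow]
  map_mul' m n := by rw [map_mul, Real.mul_rpow (h.ext_nonneg m) (h.ext_nonneg n)]

theorem rs_apply (v : ℕ → ℝ) (h : Good v) {σ : ℝ} (hσ : 0 < σ) (n : ℕ) :
    rs v h hσ n = (ext v n) ^ (-σ) := rfl

/-- the complex summand -/
noncomputable def fs (v : ℕ → ℝ) (h : Good v) {s : ℂ} (hs : s ≠ 0) : ℕ →*₀ ℂ where
  toFun n := ((ext v n : ℝ) : ℂ) ^ (-s)
  map_zero' := by rw [map_zero, Complex.ofReal_zero, Complex.zero_cpow (neg_ne_zero.2 hs)]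
  map_one' := by rw [map_one, Complex.ofReal_one, Complex.one_cpow]
  map_mul' m n := by
    rw [map_mul, Complex.ofReal_mul,
      Complex.mul_cpow_ofReal_nonneg (h.ext_nonneg m) (h.ext_nonneg n)]

theorem fs_apply (v : ℕ → ℝ) (h : Good v) {s : ℂ} (hs : s ≠ 0) (n : ℕ) :
    fs v h hs n = ((ext v n : ℝ) : ℂ) ^ (-s) := rfl

theorem norm_fs (v : ℕ → ℝ) (h : Good v) {s : ℂ} (hs : s ≠ 0) (hs1 : 0 < s.re) (n : ℕ) :
    ‖fs v h hs n‖ = rs v h hs1 n := by
  rcases Nat.eq_zero_or_pos n with rfl | hn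
  · simp
  · rw [fs_apply, rs_apply, Complex.norm_cpow_eq_rpow_re_of_pos (h.ext_pos hn), Complex.neg_re]

/-- the Dirichlet series converges absolutely -/
theorem summable_rs (v : ℕ → ℝ) (h : Good v) (h2 : ∀ p : ℕ, p.Prime → (p : ℝ) / 2 ≤ v p)
    {σ : ℝ} (hσ : 1 < σ) (hσ0 : 0 < σ) : Summable (rs v h hσ0) := by
  set z0 : ℝ := Real.sqrt 2 ^ (-σ) with hz0
  have hs2 : 1 < Real.sqrt 2 := by
    rw [Real.lt_sqrt zero_le_one]; norm_num
  have hz1 : z0 < 1 := Real.rpow_lt_one_of_one_lt_of_neg hs2 (by linarith)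
  have hd : 0 < 1 - z0 := by linarith
  have hzsum : Summable fun n : ℕ => (n : ℝ) ^ (-σ) :=
    Real.summable_nat_rpow.2 (by linarith)
  have hg0 : ∀ n, 0 ≤ rs v h hσ0 n := fun n => Real.rpow_nonneg (h.ext_nonneg n) _
  have hgp : ∀ p : ℕ, p.Prime → rs v h hσ0 p ≤ z0 ∧ rs v h hσ0 p ≤ 2 ^ σ * (p : ℝ) ^ (-σ) := by
    intro p hp
    have hp2 : (2 : ℝ) ≤ p := by exact_mod_cast hp.two_le
    rw [rs_apply, ext_prime hp]
    constructor
    · rw [hz0]
      refine Real.rpow_le_rpow_of_nonpos (by linarith) ?_ (by linarith)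
      exact (Real.sqrt_le_sqrt hp2).trans (h p hp)
    · calc (v p) ^ (-σ) ≤ ((p : ℝ) / 2) ^ (-σ) :=
            Real.rpow_le_rpow_of_nonpos (by positivity) (h2 p hp) (by linarith)
        _ = (p : ℝ) ^ (-σ) / (2 : ℝ) ^ (-σ) := Real.div_rpow (by linarith) zero_le_two _
        _ = 2 ^ σ * (p : ℝ) ^ (-σ) := by
          rw [Real.rpow_neg zero_le_two, div_inv_eq_mul, mul_comm]
  have hfac : ∀ p : ℕ, p.Prime →
      (1 - rs v h hσ0 p)⁻¹ ≤ Real.exp (2 ^ σ / (1 - z0) * (p : ℝ) ^ (-σ)) := by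
    intro p hp
    obtain ⟨k1, k2⟩ := hgp p hp
    set z := rs v h hσ0 p with hz
    have hz' : 0 ≤ z := hg0 p
    have h5 : 0 < 1 - z := by linarith
    calc (1 - z)⁻¹ = 1 + z / (1 - z) := by field_simp; ring
      _ ≤ 1 + z / (1 - z0) := by gcongr
      _ ≤ Real.exp (z / (1 - z0)) := by
        have := Real.add_one_le_exp (z / (1 - z0))
        linarith
      _ ≤ _ := by
        refine Real.exp_le_exp.2 ?_
        rw [div_mul_eq_mul_div]
        gcongr
  refine summable_of_sum_le (c := Real.exp (2 ^ σ / (1 - z0) * ∑' n : ℕ, (n : ℝ) ^ (-σ)))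
    hg0 fun A => ?_
  set N := A.sup id + 1 with hN
  obtain ⟨-, k2⟩ := EulerProduct.summable_and_hasSum_smoothNumbers_prod_primesBelow_geometric
    (f := (rs v h hσ0).toMonoidHom) (fun {p} hp => by
      change ‖rs v h hσ0 p‖ < 1
      rw [Real.norm_of_nonneg (hg0 p)]
      exact (hgp p hp).1.trans_lt hz1) N
  have k3 : HasSum ((N.smoothNumbers).indicator (rs v h hσ0))
      (∏ p ∈ N.primesBelow, (1 - rs v h hσ0 p)⁻¹) := by
    rw [← hasSum_subtype_iff_indicator]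
    exact k2
  have k4 : ∑ n ∈ A, rs v h hσ0 n ≤ ∏ p ∈ N.primesBelow, (1 - rs v h hσ0 p)⁻¹ := by
    have e : ∑ n ∈ A, rs v h hσ0 n = ∑ n ∈ A, (N.smoothNumbers).indicator (rs v h hσ0) n := by
      refine Finset.sum_congr rfl fun n hn => ?_
      rcases Nat.eq_zero_or_pos n with rfl | hn0
      · by_cases h0 : (0 : ℕ) ∈ N.smoothNumbers
        · rw [Set.indicator_of_mem h0]
        · rw [Set.indicator_of_notMem h0, map_zero]
      · rw [Set.indicator_of_mem]
        refine Nat.mem_smoothNumbers_of_lt hn0 ?_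
        have : id n ≤ A.sup id := Finset.le_sup hn
        rw [hN]
        exact Nat.lt_succ_of_le this
    rw [e]
    refine sum_le_hasSum A (fun n _ => ?_) k3
    exact Set.indicator_nonneg (fun n _ => hg0 n) n
  refine k4.trans ?_
  calc ∏ p ∈ N.primesBelow, (1 - rs v h hσ0 p)⁻¹
      ≤ ∏ p ∈ N.primesBelow, Real.exp (2 ^ σ / (1 - z0) * (p : ℝ) ^ (-σ)) := by
        refine Finset.prod_le_prod (fun p hp => ?_) fun p hp => hfac p (Nat.prime_of_mem_primesBelow hp)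
        have := (hgp p (Nat.prime_of_mem_primesBelow hp)).1
        rw [inv_nonneg]
        linarith
    _ = Real.exp (2 ^ σ / (1 - z0) * ∑ p ∈ N.primesBelow, (p : ℝ) ^ (-σ)) := by
        rw [← Real.exp_sum, Finset.mul_sum]
    _ ≤ _ := by
        refine Real.exp_le_exp.2 (mul_le_mul_of_nonneg_left ?_ (by positivity))
        exact hzsum.sum_le_tsum _ fun n _ => Real.rpow_nonneg (Nat.cast_nonneg _) _

theorem summable_fs (v : ℕ → ℝ) (h : Good v) (h2 : ∀ p : ℕ, p.Prime → (p : ℝ) / 2 ≤ v p)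
    {s : ℂ} (hs : s ≠ 0) (hs1 : 1 < s.re) : Summable fun n => ‖fs v h hs n‖ := by
  have hs0 : 0 < s.re := by linarith
  refine (summable_rs v h h2 hs1 hs0).congr fun n => ?_
  rw [norm_fs v h hs hs0]

theorem good_id : Good fun p => (p : ℝ) := fun p hp => by
  rw [Real.sqrt_le_left (Nat.cast_nonneg _)]
  have : (1 : ℝ) ≤ p := by exact_mod_cast hp.one_lt.le
  nlinarith

/-- the logarithms are summable -/
theorem summable_log (v : ℕ → ℝ) (h : Good v) (h2 : ∀ p : ℕ, p.Prime → (p : ℝ) / 2 ≤ v p)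
    {s : ℂ} (hs1 : 1 < s.re) :
    Summable fun p : Nat.Primes => Complex.log (1 - ((v p : ℝ) : ℂ) ^ (-s)) := by
  have hs : s ≠ 0 := by
    rintro rfl
    norm_num at hs1
  have h3 := (summable_fs v h h2 hs hs1).of_norm
  have h4 : Summable fun p : Nat.Primes => fs v h hs p := h3.subtype _
  refine (Summable.clog_one_sub h4).congr fun p => ?_
  rw [fs_apply, ext_prime p.2]

/-- the Euler product -/
theorem euler (v : ℕ → ℝ) (h : Good v) (h2 : ∀ p : ℕ, p.Prime → (p : ℝ) / 2 ≤ v p)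
    {s : ℂ} (hs1 : 1 < s.re) :
    HasSum (fun n : ℕ => ((ext v n : ℝ) : ℂ) ^ (-s))
      (Complex.exp (∑' p : Nat.Primes, -Complex.log (1 - ((v p : ℝ) : ℂ) ^ (-s)))) := by
  have hs : s ≠ 0 := by
    rintro rfl
    norm_num at hs1
  have h3 := summable_fs v h h2 hs hs1
  have h4 := EulerProduct.exp_tsum_primes_log_eq_tsum h3
  have h5 : (∑' p : Nat.Primes, -Complex.log (1 - ((v p : ℝ) : ℂ) ^ (-s))) =
      ∑' p : Nat.Primes, -Complex.log (1 - fs v h hs p) := by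
    refine tsum_congr fun p => ?_
    rw [fs_apply, ext_prime p.2]
  rw [h5, h4]
  exact h3.of_norm.hasSum

end Pool.Agent.BG
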