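import Pool.Agent.Lib_MP_7ba156_nt.Fin

/-!
# MP_7ba156_nt: emptying the middle of a window without changing the density
-/

namespace Pool.Agent.BG

open Finset

/-- `1 - 1/x` -/
noncomputable def G (x : ℝ) : ℝ := 1 - 1 / x

theorem G_pos {x : ℝ} (hx : 1 < x) : 0 < G x := by
  unfold G
  rw [sub_pos, div_lt_one (by linarith)]
  exact hx

theorem G_mono {x y : ℝ} (hx : 0 < x) (hxy : x ≤ y) : G x ≤ G y := by
  unfold G
  have := one_div_le_one_div_of_le hx hxy
  linarith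

theorem G_cont {a b : ℝ} (ha : 0 < a) : ContinuousOn G (Set.Icc a b) := by
  unfold G
  refine continuousOn_const.sub (continuousOn_const.div continuousOn_id ?_)
  rintro x ⟨hx, -⟩
  exact (ha.trans_le hx).ne'

theorem G_ineq1 {t h : ℝ} (hh : 0 < h) (ht : 2 * h + 1 < t) :
    G (t + h) ^ 2 * G (t - 2 * h) ≤ G t ^ 3 := by
  have h1 : 0 < t - 1 := by linarith
  set s := t - 1 with hs
  have e : t = s + 1 := by rw [hs]; ring
  have h2 : 0 < s + 1 + h := by linarith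
  have h3 : 0 < s + 1 - 2 * h := by linarith
  have h4 : 0 < s + 1 := by linarith
  have e1 : G (t + h) = (s + h) / (s + 1 + h) := by
    unfold G; rw [e]; field_simp; ring
  have e2 : G (t - 2 * h) = (s - 2 * h) / (s + 1 - 2 * h) := by
    unfold G; rw [e]; field_simp; ring
  have e3 : G t = s / (s + 1) := by
    unfold G; rw [e]; field_simp; ring
  rw [e1, e2, e3, div_pow, div_pow, div_mul_div_comm, div_le_div_iff₀ (by positivity)
    (by positivity)]
  have key : s ^ 3 * ((s + 1 + h) ^ 2 * (s + 1 - 2 * h)) - (s + h) ^ 2 * (s - 2 * h) * (s + 1) ^ 3 =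
      3 * h ^ 2 * (s * (s + 1)) * (2 * s + 1) + 2 * h ^ 3 * (3 * s ^ 2 + 3 * s + 1) := by ring
  have : 0 ≤ 3 * h ^ 2 * (s * (s + 1)) * (2 * s + 1) + 2 * h ^ 3 * (3 * s ^ 2 + 3 * s + 1) := by
    positivity
  linarith

theorem G_ineq2 {t h : ℝ} (hh : 0 < h) (ht : 12 * h + 1 < t) :
    G t ^ 2 ≤ G (t - 2 * h) * G (t + 3 * h) := by
  have h1 : 0 < t - 1 := by linarith
  set s := t - 1 with hs
  have e : t = s + 1 := by rw [hs]; ring
  have h2 : 0 < s + 1 + 3 * h := by linarith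
  have h3 : 0 < s + 1 - 2 * h := by linarith
  have h4 : 0 < s + 1 := by linarith
  have e1 : G (t + 3 * h) = (s + 3 * h) / (s + 1 + 3 * h) := by
    unfold G; rw [e]; field_simp; ring
  have e2 : G (t - 2 * h) = (s - 2 * h) / (s + 1 - 2 * h) := by
    unfold G; rw [e]; field_simp; ring
  have e3 : G t = s / (s + 1) := by
    unfold G; rw [e]; field_simp; ring
  rw [e1, e2, e3, div_pow, div_mul_div_comm, div_le_div_iff₀ (by positivity)
    (by positivity)]
  have key : (s - 2 * h) * (s + 3 * h) * (s + 1) ^ 2 - s ^ 2 * ((s + 1 - 2 * h) * (s + 1 + 3 * h)) =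
      h * (s * (s + 1) - 6 * h * (2 * s + 1)) := by ring
  have h5 : 0 ≤ s * (s + 1) - 6 * h * (2 * s + 1) := by nlinarith
  have : 0 ≤ h * (s * (s + 1) - 6 * h * (2 * s + 1)) := by positivity
  linarith

theorem pow_ineq1 {α β γ : ℝ} (hα : 0 < α) (hβ : 0 < β) (hγ : β ≤ γ) (h : γ ^ 2 * α ≤ β ^ 3)
    {j k : ℕ} (hk : k ≤ 2 * j) : α ^ j * γ ^ k ≤ β ^ (j + k) := by
  obtain ⟨l, hl⟩ := Nat.exists_eq_add_of_le hk
  have hγ0 : 0 < γ := hβ.trans_le hγ
  have h1 : (α ^ j * γ ^ k) * γ ^ l = (γ ^ 2 * α) ^ j := by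
    rw [mul_assoc, ← pow_add, ← hl, mul_pow, ← pow_mul]
    ring
  have h2 : (γ ^ 2 * α) ^ j ≤ β ^ (j + k) * β ^ l := by
    rw [← pow_add]
    have : j + k + l = 3 * j := by omega
    rw [this, pow_mul]
    exact pow_le_pow_left₀ (by positivity) h _
  have h3 : β ^ (j + k) * β ^ l ≤ β ^ (j + k) * γ ^ l := by gcongr
  have h4 : (α ^ j * γ ^ k) * γ ^ l ≤ β ^ (j + k) * γ ^ l := by
    rw [h1]; exact h2.trans h3
  exact le_of_mul_le_mul_right h4 (by positivity)

theorem pow_ineq2 {α β γ : ℝ} (hβ : 0 < β) (hγ : β ≤ γ) (h : β ^ 2 ≤ α * γ)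
    {j k : ℕ} (hk : j ≤ k) : β ^ (j + k) ≤ α ^ j * γ ^ k := by
  obtain ⟨l, rfl⟩ := Nat.exists_eq_add_of_le hk
  have h1 : β ^ (j + (j + l)) = (β ^ 2) ^ j * β ^ l := by
    rw [← pow_mul, ← pow_add]; congr 1; omega
  have h2 : α ^ j * γ ^ (j + l) = (α * γ) ^ j * γ ^ l := by
    rw [mul_pow, pow_add]; ring
  rw [h1, h2]
  have h0 : (0 : ℝ) ≤ β ^ 2 := by positivity
  exact mul_le_mul (pow_le_pow_left₀ h0 h j) (pow_le_pow_left₀ hβ.le hγ l) (by positivity)
    (pow_nonneg (h0.trans h) _)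

/-- Emptying a window. -/
theorem window {a h : ℝ} (ha : 2 ≤ a) (hh : 0 < h) (hah : 40 * h ≤ a) (S : Finset ℕ)
    (hS : ∀ p ∈ S, a ≤ (p : ℝ) ∧ (p : ℝ) ≤ a + 6 * h) :
    ∃ u : ℕ → ℝ, (∀ p, a ≤ u p ∧ u p ≤ a + 6 * h) ∧
      (∏ p ∈ S, ((1 - 1 / (p : ℝ)) / (1 - 1 / u p))) = 1 ∧
      ∃ y, a ≤ y ∧ y + h ≤ a + 6 * h ∧ ∀ p ∈ S, ¬ (y < u p ∧ u p < y + h) := by
  have ha0 : 0 < a := by linarith
  rcases Finset.eq_empty_or_nonempty S with rfl | hne
  · exact ⟨fun _ => a, fun _ => ⟨le_rfl, by linarith⟩, by simp, a, le_rfl, by linarith, by simp⟩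
  have hn0 : 0 < S.card := hne.card_pos
  set n := S.card with hn
  set P : ℝ := ∏ p ∈ S, G p with hP
  have hP0 : 0 < P := Finset.prod_pos fun p hp => G_pos (by linarith [(hS p hp).1])
  have hP1 : G a ^ n ≤ P := by
    rw [hn, ← Finset.prod_const]
    exact Finset.prod_le_prod (fun p _ => (G_pos (by linarith)).le)
      fun p hp => G_mono ha0 (hS p hp).1
  have hP2 : P ≤ G (a + 6 * h) ^ n := by
    rw [hn, ← Finset.prod_const]
    exact Finset.prod_le_prod (fun p hp => (G_pos (by linarith [(hS p hp).1])).le)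
      fun p hp => G_mono (by linarith [(hS p hp).1]) (hS p hp).2
  obtain ⟨t, ⟨ht1, ht2⟩, ht3⟩ : P ∈ (fun x => G x ^ n) '' Set.Icc a (a + 6 * h) :=
    intermediate_value_Icc (by linarith) ((G_cont ha0).pow n) ⟨hP1, hP2⟩
  have ht3 : G t ^ n = P := ht3
  -- the products
  have hprod : ∀ u : ℕ → ℝ, (∀ p ∈ S, 1 < u p) → (∏ p ∈ S, G (u p)) = P →
      (∏ p ∈ S, ((1 - 1 / (p : ℝ)) / (1 - 1 / u p))) = 1 := by
    intro u hu h1
    have : (∏ p ∈ S, ((1 - 1 / (p : ℝ)) / (1 - 1 / u p))) = (∏ p ∈ S, G p) / ∏ p ∈ S, G (u p) := by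
      rw [← Finset.prod_div_distrib]
      rfl
    rw [this, h1, ← hP, div_self hP0.ne']
  have hconst : (∏ p ∈ S, ((1 - 1 / (p : ℝ)) / (1 - 1 / (fun _ : ℕ => t) p))) = 1 := by
    refine hprod (fun _ => t) (fun p _ => by linarith) ?_
    rw [Finset.prod_const, ← hn, ht3]
  by_cases hA : t ≤ a + 2 * h ∨ a + 3 * h ≤ t
  · refine ⟨fun _ => t, fun _ => ⟨ht1, ht2⟩, hconst, a + 2 * h, by linarith, by linarith, ?_⟩
    rintro p - ⟨h1, h2⟩
    rcases hA with h3 | h3 <;> linarith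
  push Not at hA
  obtain ⟨hA1, hA2⟩ := hA
  by_cases hn1 : n = 1
  · refine ⟨fun _ => t, fun _ => ⟨ht1, ht2⟩, hconst, a, by linarith, by linarith, ?_⟩
    rintro p - ⟨h1, h2⟩
    linarith
  -- at least two primes
  obtain ⟨S1, hS1, hS1c⟩ := Finset.exists_subset_card_eq (Nat.div_le_self n 2)
  set j := n / 2 with hj
  have hj1 : 1 ≤ j := by omega
  set k := n - j with hk
  have hk1 : j ≤ k := by omega
  have hk2 : k ≤ 2 * j := by omega
  have hjk : j + k = n := by omega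
  have hS2c : (S \ S1).card = k := by
    rw [Finset.card_sdiff_of_subset hS1, hS1c]
  have hα : 0 < G (t - 2 * h) := G_pos (by linarith)
  have hβ : 0 < G t := G_pos (by linarith)
  have h12 : 12 * h + 1 < t := by linarith
  have i1 : G (t - 2 * h) ^ j * G (t + h) ^ k ≤ P := by
    rw [← ht3, ← hjk]
    exact pow_ineq1 hα hβ (G_mono (by linarith) (by linarith)) (G_ineq1 hh (by linarith)) hk2
  have i2 : P ≤ G (t - 2 * h) ^ j * G (a + 6 * h) ^ k := by
    rw [← ht3, ← hjk]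
    refine pow_ineq2 hβ (G_mono (by linarith) (by linarith)) ((G_ineq2 hh h12).trans ?_) hk1
    exact mul_le_mul_of_nonneg_left (G_mono (by linarith) (by linarith)) hα.le
  obtain ⟨z, ⟨hz1, hz2⟩, hz3⟩ : P ∈ (fun x => G (t - 2 * h) ^ j * G x ^ k) ''
      Set.Icc (t + h) (a + 6 * h) :=
    intermediate_value_Icc (by linarith)
      (continuousOn_const.mul ((G_cont (by linarith)).pow k)) ⟨i1, i2⟩
  have hz3 : G (t - 2 * h) ^ j * G z ^ k = P := hz3
  refine ⟨fun p => if p ∈ S1 then t - 2 * h else z, fun p => ?_, ?_, a + 2 * h, by linarith,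
    by linarith, ?_⟩
  · dsimp only
    split_ifs
    · constructor <;> linarith
    · constructor <;> linarith
  · refine hprod _ (fun p _ => ?_) ?_
    · split_ifs <;> linarith
    · rw [← Finset.prod_sdiff hS1]
      have e1 : ∏ p ∈ S \ S1, G (if p ∈ S1 then t - 2 * h else z) = G z ^ k := by
        rw [← hS2c, ← Finset.prod_const]
        refine Finset.prod_congr rfl fun p hp => ?_
        rw [if_neg (Finset.mem_sdiff.1 hp).2]
      have e2 : ∏ p ∈ S1, G (if p ∈ S1 then t - 2 * h else z) = G (t - 2 * h) ^ j := by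
        rw [← hS1c, ← Finset.prod_const]
        refine Finset.prod_congr rfl fun p hp => ?_
        rw [if_pos hp]
      rw [e1, e2, mul_comm]
      exact hz3
  · rintro p - ⟨h1, h2⟩
    dsimp only at h1 h2
    split_ifs at h1 h2 <;> linarith

end Pool.Agent.BG
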