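import Pool.Agent.Lib_MP_7ba156_nt.Gap
import Pool.Agent.Lib_MP_7ba156_nt.Sum

/-!
# MP_7ba156_nt: the quotient of the two zeta functions
-/

namespace Pool.Agent.BG

open Finset

namespace WData

variable {M : ℝ → ℝ} (D : WData M)

open Classical in
/-- the weight of the moved primes -/
noncomputable def U (τ : ℝ) (n : ℕ) : ℝ := if ∃ k, n ∈ D.S k then (n : ℝ) ^ (-τ) else 0

theorem U_nonneg (τ : ℝ) (n : ℕ) : 0 ≤ D.U τ n := by
  unfold U
  split_ifs
  · exact Real.rpow_nonneg (Nat.cast_nonneg _) _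
  · exact le_rfl

theorem U_summable {C η τ : ℝ} (hη0 : 0 ≤ η) (hC : ∀ x, 2 ≤ x → M x ≤ C * x ^ η) (hτ : η < τ) :
    Summable (D.U τ) := by
  obtain ⟨B, hB⟩ := D.T_sum hη0 hC hτ
  refine summable_of_sum_le (c := B) (D.U_nonneg τ) fun F => ?_
  set K := F.sup id + 1 with hK
  refine le_trans ?_ (hB K)
  have h1 : ∑ n ∈ F, D.U τ n = ∑ n ∈ F.filter (fun n => n ∈ D.T K), D.U τ n := by
    rw [Finset.sum_filter]
    refine Finset.sum_congr rfl fun n hn => ?_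
    split_ifs with h
    · rfl
    · unfold U
      rw [if_neg]
      rintro ⟨k, hk⟩
      refine h (Finset.mem_biUnion.2 ⟨k, Finset.mem_range.2 ?_, hk⟩)
      have h2 : (2 : ℝ) ^ k ≤ n := (D.A_ge k).trans ((D.hS k n).1 hk).2.1
      have h3 : 2 ^ k ≤ n := by exact_mod_cast h2
      have h4 : k < 2 ^ k := Nat.lt_two_pow_self
      have h5 : id n ≤ F.sup id := Finset.le_sup hn
      have h6 : n ≤ F.sup id := h5
      omega
  rw [h1]
  calc ∑ n ∈ F.filter (fun n => n ∈ D.T K), D.U τ n ≤ ∑ n ∈ D.T K, D.U τ n := by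
        refine Finset.sum_le_sum_of_subset_of_nonneg ?_ fun n _ _ => D.U_nonneg τ n
        intro n hn
        exact (Finset.mem_filter.1 hn).2
    _ = ∑ n ∈ D.T K, (n : ℝ) ^ (-τ) := by
        refine Finset.sum_congr rfl fun n hn => ?_
        unfold U
        rw [if_pos]
        obtain ⟨k, -, hk⟩ := Finset.mem_biUnion.1 hn
        exact ⟨k, hk⟩

/-- the term of the logarithm of the quotient -/
noncomputable def g (p : ℕ) (s : ℂ) : ℂ :=
  Complex.log (1 - (p : ℂ) ^ (-s)) - Complex.log (1 - ((D.w p : ℝ) : ℂ) ^ (-s))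

theorem norm_lt_one {c : ℝ} (hc : 1 < c) {s : ℂ} (hs : 0 < s.re) : ‖(c : ℂ) ^ (-s)‖ < 1 := by
  rw [Complex.norm_cpow_eq_rpow_re_of_pos (by linarith), Complex.neg_re]
  exact Real.rpow_lt_one_of_one_lt_of_neg hc (by linarith)

theorem diff_log {c : ℝ} (hc : 1 < c) {s : ℂ} (hs : 0 < s.re) :
    DifferentiableAt ℂ (fun s : ℂ => Complex.log (1 - (c : ℂ) ^ (-s))) s := by
  have h1 := norm_lt_one hc hs
  refine DifferentiableAt.clog ?_ ?_
  · refine (differentiableAt_const _).sub ?_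
    refine DifferentiableAt.const_cpow differentiableAt_id.neg (Or.inl ?_)
    exact_mod_cast (by linarith : c ≠ 0)
  · rw [sub_eq_add_neg]
    refine Complex.mem_slitPlane_of_norm_lt_one ?_
    rwa [norm_neg]

theorem g_diff {p : ℕ} (hp : p.Prime) {s : ℂ} (hs : 0 < s.re) :
    DifferentiableAt ℂ (D.g p) s := by
  unfold g
  have h1 : (1 : ℝ) < (p : ℝ) := by exact_mod_cast hp.one_lt
  have h2 := diff_log h1 hs
  have h3 := diff_log (D.good.one_lt hp) hs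
  rw [Complex.ofReal_natCast] at h2
  exact h2.sub h3

theorem norm_log_le {z : ℂ} {z0 : ℝ} (hz : ‖z‖ ≤ z0) (hz0 : z0 < 1) :
    ‖Complex.log (1 - z)‖ ≤ (1 + (1 - z0)⁻¹) * ‖z‖ := by
  have h1 : ‖-z‖ < 1 := by
    rw [norm_neg]
    exact hz.trans_lt hz0
  have h2 := Complex.norm_log_one_add_le h1
  rw [← sub_eq_add_neg, norm_neg] at h2
  refine h2.trans ?_
  have h3 : 0 ≤ ‖z‖ := norm_nonneg z
  have h4 : 0 < 1 - z0 := by linarith
  have h5 : (1 - ‖z‖)⁻¹ ≤ (1 - z0)⁻¹ := by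
    refine inv_anti₀ h4 (by linarith)
  have h6 : ‖z‖ ^ 2 ≤ ‖z‖ := by nlinarith
  have h7 : 0 ≤ (1 - ‖z‖)⁻¹ := by
    rw [inv_nonneg]
    linarith
  have h8 : ‖z‖ ^ 2 * (1 - ‖z‖)⁻¹ ≤ ‖z‖ * (1 - z0)⁻¹ := mul_le_mul h6 h5 h7 h3
  have h9 : 0 ≤ ‖z‖ * (1 - z0)⁻¹ := mul_nonneg h3 (inv_nonneg.2 h4.le)
  linarith

theorem g_bound {τ : ℝ} (hτ : 0 < τ) : ∃ K : ℝ, 0 ≤ K ∧ ∀ p : ℕ, p.Prime → ∀ s : ℂ, τ ≤ s.re →
    ‖D.g p s‖ ≤ K * D.U τ p := by
  set z0 : ℝ := Real.sqrt 2 ^ (-τ) with hz0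
  have hs2 : 1 < Real.sqrt 2 := by
    rw [Real.lt_sqrt zero_le_one]; norm_num
  have hz1 : z0 < 1 := Real.rpow_lt_one_of_one_lt_of_neg hs2 (by linarith)
  have hd : 0 < 1 - z0 := by linarith
  have hK : 0 ≤ 1 + (1 - z0)⁻¹ := by positivity
  refine ⟨(1 + (1 - z0)⁻¹) * (1 + 2 ^ τ), by positivity, fun p hp s hs => ?_⟩
  have hp2 : (2 : ℝ) ≤ p := by exact_mod_cast hp.two_le
  have hn : ∀ c : ℝ, Real.sqrt 2 ≤ c → ‖(c : ℂ) ^ (-s)‖ ≤ c ^ (-τ) ∧ ‖(c : ℂ) ^ (-s)‖ ≤ z0 := by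
    intro c hc
    have hc1 : 1 < c := hs2.trans_le hc
    have h1 : ‖(c : ℂ) ^ (-s)‖ ≤ c ^ (-τ) := by
      rw [Complex.norm_cpow_eq_rpow_re_of_pos (by linarith), Complex.neg_re]
      exact Real.rpow_le_rpow_of_exponent_le hc1.le (by linarith)
    refine ⟨h1, h1.trans ?_⟩
    exact Real.rpow_le_rpow_of_nonpos (by linarith) hc (by linarith)
  by_cases h : ∃ k, p ∈ D.S k
  · have hU : D.U τ p = (p : ℝ) ^ (-τ) := by
      unfold U
      rw [if_pos h]
    rw [hU]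
    have h1 : Real.sqrt 2 ≤ (p : ℝ) := by
      refine le_trans ?_ hp2
      rw [Real.sqrt_le_left zero_le_two]
      norm_num
    have h2 : Real.sqrt 2 ≤ D.w p := by
      refine le_trans ?_ (D.two_le hp)
      rw [Real.sqrt_le_left zero_le_two]
      norm_num
    obtain ⟨a1, a2⟩ := hn _ h1
    obtain ⟨b1, b2⟩ := hn _ h2
    have a3 := norm_log_le a2 hz1
    have b3 := norm_log_le b2 hz1
    have b4 : (D.w p) ^ (-τ) ≤ 2 ^ τ * (p : ℝ) ^ (-τ) := by
      calc (D.w p) ^ (-τ) ≤ ((p : ℝ) / 2) ^ (-τ) :=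
            Real.rpow_le_rpow_of_nonpos (by positivity) (D.half_le p) (by linarith)
        _ = (p : ℝ) ^ (-τ) / (2 : ℝ) ^ (-τ) := Real.div_rpow (by linarith) zero_le_two _
        _ = 2 ^ τ * (p : ℝ) ^ (-τ) := by
          rw [Real.rpow_neg zero_le_two, div_inv_eq_mul, mul_comm]
    have e : D.g p s = Complex.log (1 - ((p : ℝ) : ℂ) ^ (-s)) -
        Complex.log (1 - ((D.w p : ℝ) : ℂ) ^ (-s)) := by
      unfold g
      rw [Complex.ofReal_natCast]
    rw [e]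
    calc _ ≤ ‖Complex.log (1 - ((p : ℝ) : ℂ) ^ (-s))‖ +
          ‖Complex.log (1 - ((D.w p : ℝ) : ℂ) ^ (-s))‖ := norm_sub_le _ _
      _ ≤ (1 + (1 - z0)⁻¹) * (p : ℝ) ^ (-τ) + (1 + (1 - z0)⁻¹) * (2 ^ τ * (p : ℝ) ^ (-τ)) := by
        refine add_le_add (a3.trans ?_) (b3.trans ?_)
        · exact mul_le_mul_of_nonneg_left a1 hK
        · exact mul_le_mul_of_nonneg_left (b1.trans b4) hK
      _ = _ := by ring
  · have h0 : D.g p s = 0 := by
      unfold g
      have h1 : D.w p = p := D.w_of_notMem fun k hk => h ⟨k, hk⟩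
      rw [h1, Complex.ofReal_natCast, sub_self]
    rw [h0, norm_zero]
    have : 0 ≤ 1 + (1 - z0)⁻¹ := hK
    have h3 := D.U_nonneg τ p
    positivity

/-- the quotient of the two zeta functions -/
noncomputable def Q (s : ℂ) : ℂ := Complex.exp (∑' p : Nat.Primes, D.g p s)

theorem Q_diff {C η : ℝ} (hη0 : 0 ≤ η) (hC : ∀ x, 2 ≤ x → M x ≤ C * x ^ η) {s : ℂ}
    (hs : η < s.re) : DifferentiableAt ℂ D.Q s := by
  set τ : ℝ := (η + s.re) / 2 with hτ
  obtain ⟨K, hK, hb⟩ := D.g_bound (τ := τ) (by linarith)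
  have hsum : Summable fun p : Nat.Primes => K * D.U τ p :=
    ((D.U_summable hη0 hC (by linarith)).subtype _).mul_left K
  have hopen : IsOpen {z : ℂ | τ < z.re} := isOpen_lt continuous_const Complex.continuous_re
  have h1 : DifferentiableOn ℂ (fun z : ℂ => ∑' p : Nat.Primes, D.g p z) {z : ℂ | τ < z.re} := by
    refine Complex.differentiableOn_tsum_of_summable_norm hsum (fun p z hz => ?_) hopen
      fun p z hz => ?_
    · have hz' : τ < z.re := hz
      exact (D.g_diff p.2 (by linarith)).differentiableWithinAt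
    · have hz' : τ < z.re := hz
      exact hb p p.2 z hz'.le
  have h2 : DifferentiableAt ℂ (fun z : ℂ => ∑' p : Nat.Primes, D.g p z) s :=
    h1.differentiableAt (hopen.mem_nhds (show τ < s.re by linarith))
  exact h2.cexp

theorem Q_bound {C η τ : ℝ} (hη0 : 0 ≤ η) (hC : ∀ x, 2 ≤ x → M x ≤ C * x ^ η) (hτ : η < τ) :
    ∃ B : ℝ, 0 < B ∧ ∀ s : ℂ, τ ≤ s.re → 1 / B ≤ ‖D.Q s‖ ∧ ‖D.Q s‖ ≤ B := by
  obtain ⟨K, hK, hb⟩ := D.g_bound (τ := τ) (by linarith)
  have hsum : Summable fun p : Nat.Primes => K * D.U τ p :=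
    ((D.U_summable hη0 hC hτ).subtype _).mul_left K
  set L := ∑' p : Nat.Primes, K * D.U τ p with hL
  refine ⟨Real.exp L, Real.exp_pos _, fun s hs => ?_⟩
  have h1 : ‖∑' p : Nat.Primes, D.g p s‖ ≤ L :=
    tsum_of_norm_bounded hsum.hasSum fun p => hb p p.2 s hs
  have h2 := Complex.abs_re_le_norm (∑' p : Nat.Primes, D.g p s)
  have h3 := abs_le.1 (h2.trans h1)
  unfold Q
  rw [Complex.norm_exp, one_div, ← Real.exp_neg]
  exact ⟨Real.exp_le_exp.2 h3.1, Real.exp_le_exp.2 h3.2⟩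

theorem zeta_eq {s : ℂ} (hs : 1 < s.re) :
    HasSum (fun n : ℕ => ((ext D.w n : ℝ) : ℂ) ^ (-s)) (riemannZeta s * D.Q s) := by
  have h1 := euler D.w D.good (fun p _ => D.half_le p) hs
  have h2 := summable_log D.w D.good (fun p _ => D.half_le p) hs
  have h3 : Summable fun p : Nat.Primes => Complex.log (1 - (p : ℂ) ^ (-s)) := by
    have := summable_log (fun p => (p : ℝ)) good_id (fun p _ => by
      have : (0 : ℝ) ≤ p := Nat.cast_nonneg _
      linarith) hs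
    refine this.congr fun p => ?_
    rw [Complex.ofReal_natCast]
  have h4 : riemannZeta s * D.Q s =
      Complex.exp (∑' p : Nat.Primes, -Complex.log (1 - ((D.w p : ℝ) : ℂ) ^ (-s))) := by
    rw [← riemannZeta_eulerProduct_exp_log hs]
    unfold Q
    rw [← Complex.exp_add]
    congr 1
    have h5 : Summable fun p : Nat.Primes => D.g p s := h3.sub h2
    rw [← h3.neg.tsum_add h5]
    refine tsum_congr fun p => ?_
    unfold g
    ring
  rw [h4]
  exact h1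

end WData

end Pool.Agent.BG
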